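import Mathlib
import Pool.Agent.H713R2.Area

set_option autoImplicit false

open MeasureTheory Set Filter Metric

namespace Pool.Agent.TH136.Tip

/-- Change of variables for an injective holomorphic map. -/
theorem lintegral_holo {F : ℂ → ℂ} (hF : Differentiable ℂ F) {A : Set ℂ} (hA : MeasurableSet A)
    (hinj : InjOn F A) (g : ℂ → ENNReal) :
    ∫⁻ z in A, ENNReal.ofReal (‖deriv F z‖ ^ 2) * g (F z) = ∫⁻ w in F '' A, g w := by
  have h1 := lintegral_image_eq_lintegral_abs_det_fderiv_mul (μ := (volume : Measure ℂ)) hA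
    (f := F) (f' := fun z => (ContinuousLinearMap.toSpanSingleton ℂ (deriv F z)).restrictScalars ℝ)
    (fun z _ => ((hF z).hasDerivAt.hasFDerivAt.restrictScalars ℝ).hasFDerivWithinAt) hinj g
  rw [h1]
  apply lintegral_congr
  intro z
  rw [Pool.Agent.H713R2.det_mul_real, abs_of_nonneg (by positivity)]

theorem volume_re_zero : volume {z : ℂ | z.re = 0} = 0 := by
  have h := Measure.addHaar_submodule (volume : Measure ℂ) (LinearMap.ker Complex.reLm) (by
    intro h
    have h1 : (1 : ℂ) ∈ LinearMap.ker Complex.reLm := by rw [h]; trivial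
    simp at h1)
  convert h using 2
  ext z
  simp

/-- A two-to-one version: the map is injective on the right part and on the left part of `A`. -/
theorem push_le {F : ℂ → ℂ} (hF : Differentiable ℂ F) {A S : Set ℂ} (hA : MeasurableSet A)
    (hinjP : InjOn F (A ∩ {z | 0 < z.re})) (hinjN : InjOn F (A ∩ {z | z.re < 0}))
    (hAS : ∀ z ∈ A, F z ∈ S) (g : ℂ → ENNReal) :
    ∫⁻ z in A, ENNReal.ofReal (‖deriv F z‖ ^ 2) * g (F z) ≤ 2 * ∫⁻ w in S, g w := by
  have hP : MeasurableSet {z : ℂ | 0 < z.re} := measurableSet_lt measurable_const Complex.measurable_re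
  have hN : MeasurableSet {z : ℂ | z.re < 0} := measurableSet_lt Complex.measurable_re measurable_const
  have hsub : A ⊆ ((A ∩ {z | 0 < z.re}) ∪ (A ∩ {z | z.re < 0})) ∪ {z : ℂ | z.re = 0} := by
    intro z hz
    rcases lt_trichotomy z.re 0 with h | h | h
    · exact Or.inl (Or.inr ⟨hz, h⟩)
    · exact Or.inr h
    · exact Or.inl (Or.inl ⟨hz, h⟩)
  have h0 : ∫⁻ z in {z : ℂ | z.re = 0}, ENNReal.ofReal (‖deriv F z‖ ^ 2) * g (F z) = 0 := by
    rw [Measure.restrict_eq_zero.mpr volume_re_zero, lintegral_zero_measure]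
  calc ∫⁻ z in A, ENNReal.ofReal (‖deriv F z‖ ^ 2) * g (F z)
      ≤ ∫⁻ z in ((A ∩ {z | 0 < z.re}) ∪ (A ∩ {z | z.re < 0})) ∪ {z : ℂ | z.re = 0},
          ENNReal.ofReal (‖deriv F z‖ ^ 2) * g (F z) := lintegral_mono_set hsub
    _ ≤ (∫⁻ z in (A ∩ {z | 0 < z.re}) ∪ (A ∩ {z | z.re < 0}),
          ENNReal.ofReal (‖deriv F z‖ ^ 2) * g (F z)) +
        ∫⁻ z in {z : ℂ | z.re = 0}, ENNReal.ofReal (‖deriv F z‖ ^ 2) * g (F z) :=
        lintegral_union_le _ _ _
    _ ≤ ((∫⁻ z in (A ∩ {z | 0 < z.re}), ENNReal.ofReal (‖deriv F z‖ ^ 2) * g (F z)) +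
          ∫⁻ z in (A ∩ {z | z.re < 0}), ENNReal.ofReal (‖deriv F z‖ ^ 2) * g (F z)) + 0 := by
        rw [h0]
        gcongr
        exact lintegral_union_le _ _ _
    _ = (∫⁻ w in F '' (A ∩ {z | 0 < z.re}), g w) + ∫⁻ w in F '' (A ∩ {z | z.re < 0}), g w := by
        rw [add_zero, lintegral_holo hF (hA.inter hP) hinjP, lintegral_holo hF (hA.inter hN) hinjN]
    _ ≤ (∫⁻ w in S, g w) + ∫⁻ w in S, g w := by
        gcongr
        · rintro _ ⟨z, hz, rfl⟩
          exact hAS z hz.1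
        · rintro _ ⟨z, hz, rfl⟩
          exact hAS z hz.1
    _ = 2 * ∫⁻ w in S, g w := by rw [two_mul]

end Pool.Agent.TH136.Tip
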