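import Mathlib

set_option autoImplicit false

open Set Filter Metric

namespace Pool.Agent.TH136.Tip

/-- The quadratic polynomial `z ^ 2 + c`, `c = β - β ^ 2`, with fixed point `β`. -/
def q (β : ℂ) : ℂ → ℂ := fun z => z ^ 2 + (β - β ^ 2)

/-- The number `c + β`. -/
def et (β : ℂ) : ℂ := 2 * β - β ^ 2

/-- The quantity `|z ^ 2 - β ^ 2|`. -/
noncomputable def R (β z : ℂ) : ℝ := ‖z ^ 2 - β ^ 2‖

theorem q_sub (β z : ℂ) : q β z - β = (z - β) * (z + β) := by unfold q; ring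

theorem q_add (β z : ℂ) : q β z + β = z ^ 2 + et β := by unfold q et; ring

theorem R_nonneg (β z : ℂ) : 0 ≤ R β z := norm_nonneg _

theorem R_q (β z : ℂ) : R β (q β z) = R β z * ‖z ^ 2 + et β‖ := by
  unfold R
  rw [← norm_mul]
  congr 1
  unfold q et
  ring

theorem differentiable_q (β : ℂ) : Differentiable ℂ (q β) := by
  unfold q
  fun_prop

theorem hasDerivAt_q (β z : ℂ) : HasDerivAt (q β) (2 * z) z := by
  have h : HasDerivAt (fun z : ℂ => z ^ 2 + (β - β ^ 2)) _ z :=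
    (hasDerivAt_pow 2 z).add_const (β - β ^ 2)
  refine h.congr_deriv ?_
  norm_num

theorem differentiable_iter (β : ℂ) (n : ℕ) : Differentiable ℂ ((q β)^[n]) :=
  (differentiable_q β).iterate n

theorem deriv_iter_succ (β : ℂ) (n : ℕ) (z : ℂ) :
    deriv ((q β)^[n + 1]) z = deriv ((q β)^[n]) (q β z) * (2 * z) := by
  have h3 : HasDerivAt ((q β)^[n]) (deriv ((q β)^[n]) (q β z)) (q β z) :=
    (differentiable_iter β n _).hasDerivAt
  have h4 := h3.comp z (hasDerivAt_q β z)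
  rw [Function.iterate_succ]
  exact h4.deriv

theorem deriv_iter_succ' (β : ℂ) (n : ℕ) (z : ℂ) :
    deriv ((q β)^[n + 1]) z = 2 * (q β)^[n] z * deriv ((q β)^[n]) z := by
  have h3 : HasDerivAt ((q β)^[n]) (deriv ((q β)^[n]) z) z :=
    (differentiable_iter β n _).hasDerivAt
  have h4 := (hasDerivAt_q β ((q β)^[n] z)).comp z h3
  rw [Function.iterate_succ']
  exact h4.deriv

/-- The potential step. -/
theorem pot_step {L x y : ℝ} (hL : 4 ≤ L) (hx : 0 ≤ x) (hy : 0 ≤ y) (hyx : y ≤ x * (L + x)) :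
    12 * y / (12 + y) ≤ L * (12 * x / (12 + x)) := by
  have h1 : 12 * y / (12 + y) ≤ 12 * (x * (L + x)) / (12 + x * (L + x)) := by
    rw [div_le_div_iff₀ (by linarith) (by positivity)]
    nlinarith
  refine h1.trans ?_
  rw [mul_div_assoc', div_le_div_iff₀ (by positivity) (by linarith)]
  have h2 : (L + x) * (12 + x) ≤ L * (12 + x * (L + x)) := by
    nlinarith [mul_nonneg hx (show 0 ≤ (L - 4) * (L + 3) by nlinarith),
      mul_nonneg (mul_nonneg hx hx) (show 0 ≤ L - 1 by linarith)]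
  nlinarith [mul_le_mul_of_nonneg_left h2 hx]

theorem pot_iter {β : ℂ} {L : ℝ} (hL : 4 ≤ L) (hβ : 2 * ‖β‖ ≤ L) (z : ℂ) (k : ℕ) :
    12 * ‖(q β)^[k] z - β‖ / (12 + ‖(q β)^[k] z - β‖) ≤ L ^ k * (12 * ‖z - β‖ / (12 + ‖z - β‖)) := by
  induction k with
  | zero => simp
  | succ k ih =>
    rw [Function.iterate_succ_apply']
    set w := (q β)^[k] z with hw
    have h1 : ‖q β w - β‖ ≤ ‖w - β‖ * (L + ‖w - β‖) := by
      rw [q_sub, norm_mul]
      apply mul_le_mul_of_nonneg_left _ (norm_nonneg _)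
      have : w + β = 2 * β + (w - β) := by ring
      rw [this]
      refine (norm_add_le _ _).trans ?_
      rw [norm_mul, Complex.norm_ofNat]
      linarith
    refine (pot_step hL (norm_nonneg _) (norm_nonneg _) h1).trans ?_
    rw [pow_succ', mul_assoc]
    exact mul_le_mul_of_nonneg_left ih (by linarith)

theorem near_beta {β : ℂ} {L : ℝ} (hL : 4 ≤ L) (hβ : 2 * ‖β‖ ≤ L) {z : ℂ} {k : ℕ}
    (h : L ^ k * ‖z - β‖ ≤ 2 / 5) : ‖(q β)^[k] z - β‖ ≤ 1 / 2 := by
  have h1 := pot_iter hL hβ z k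
  have h2 : 12 * ‖z - β‖ / (12 + ‖z - β‖) ≤ ‖z - β‖ := by
    rw [div_le_iff₀ (by positivity)]
    nlinarith [norm_nonneg (z - β)]
  have hLk : 0 ≤ L ^ k := pow_nonneg (by linarith) _
  have h3 := (h1.trans (mul_le_mul_of_nonneg_left h2 hLk)).trans h
  set x := ‖(q β)^[k] z - β‖ with hx
  have hx0 : 0 ≤ x := norm_nonneg _
  rw [div_le_iff₀ (by positivity)] at h3
  linarith

/-- Derivative of the iterates along an orbit outside of the unit disc. -/
theorem orbit_R {β : ℂ} {w : ℂ} (m : ℕ) (h : ∀ j < m, 1 ≤ ‖(q β)^[j] w‖) :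
    R β ((q β)^[m] w) ≤ ((1 + ‖et β‖) / 4) ^ m * (‖deriv ((q β)^[m]) w‖ ^ 2 * R β w) := by
  induction m with
  | zero => simp
  | succ m ih =>
    have ih' := ih (fun j hj => h j (by omega))
    rw [Function.iterate_succ_apply', deriv_iter_succ', R_q]
    set v := (q β)^[m] w with hv
    have hv1 : 1 ≤ ‖v‖ := h m (by omega)
    have hη : 0 ≤ ‖et β‖ := norm_nonneg _
    have h1 : ‖v ^ 2 + et β‖ ≤ (1 + ‖et β‖) / 4 * ‖2 * v‖ ^ 2 := by
      refine (norm_add_le _ _).trans ?_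
      rw [norm_pow, norm_mul, Complex.norm_ofNat]
      nlinarith [mul_nonneg hη (show 0 ≤ ‖v‖ ^ 2 - 1 by nlinarith)]
    calc R β v * ‖v ^ 2 + et β‖ ≤ (((1 + ‖et β‖) / 4) ^ m * (‖deriv ((q β)^[m]) w‖ ^ 2 * R β w)) *
          ((1 + ‖et β‖) / 4 * ‖2 * v‖ ^ 2) := by
          apply mul_le_mul ih' h1 (norm_nonneg _)
          have := R_nonneg β w
          positivity
      _ = ((1 + ‖et β‖) / 4) ^ (m + 1) * (‖2 * v * deriv ((q β)^[m]) w‖ ^ 2 * R β w) := by
          rw [norm_mul (2 * v)]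
          ring

end Pool.Agent.TH136.Tip
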