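import Mathlib
import Pool.Agent.TH136.Tip.Dyn

set_option autoImplicit false
set_option linter.unusedSectionVars false

open Set Filter Metric

namespace Pool.Agent.TH136.Tip

section

variable {β : ℂ} (hβ : ‖β - 2‖ ≤ 1 / 1000)

include hβ

theorem norm_beta_ge : 1999 / 1000 ≤ ‖β‖ := by
  have h1 : (2 : ℝ) = ‖(2 : ℂ)‖ := by simp
  have h2 : ‖(2 : ℂ)‖ ≤ ‖β‖ + ‖2 - β‖ := by
    have := norm_add_le β (2 - β)
    simpa using this
  rw [norm_sub_rev] at h2
  rw [← h1] at h2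
  linarith

theorem norm_beta_le : ‖β‖ ≤ 2 + ‖β - 2‖ := by
  have h2 : ‖(2 : ℂ) + (β - 2)‖ ≤ ‖(2 : ℂ)‖ + ‖β - 2‖ := norm_add_le _ _
  simpa using h2

theorem norm_et (β : ℂ) : ‖et β‖ = ‖β‖ * ‖β - 2‖ := by
  rw [← norm_mul, ← norm_neg]
  congr 1
  unfold et
  ring

theorem le_et : ‖β - 2‖ ≤ ‖et β‖ := by
  have h1 := norm_beta_ge hβ
  rw [norm_et (β := β) hβ]
  nlinarith [norm_nonneg (β - 2)]

theorem et_le : ‖et β‖ ≤ 1 / 400 := by
  have h1 := norm_beta_ge hβ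
  have h2 := norm_beta_le hβ
  rw [norm_et (β := β) hβ]
  nlinarith [norm_nonneg (β - 2)]

theorem two_beta_le : 2 * ‖β‖ ≤ 4 * (1 + ‖et β‖) := by
  have h2 := norm_beta_le hβ
  have h3 := le_et hβ
  linarith [norm_nonneg (β - 2)]

end

theorem pow_le_two {h : ℝ} (h0 : 0 ≤ h) {k : ℕ} (hk : k * h ≤ 1 / 2) : (1 + h) ^ k ≤ 2 := by
  rcases Nat.eq_zero_or_pos k with rfl | hk0
  · norm_num
  have hk1 : (1 : ℝ) ≤ k := by exact_mod_cast hk0
  have hh : h ≤ 1 / 2 := by nlinarith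
  have h1 : 1 + (k : ℝ) * (-h) ≤ (1 + (-h)) ^ k := one_add_mul_le_pow (by linarith) k
  have h2 : (1 + h) ^ k * (1 + (-h)) ^ k ≤ 1 := by
    rw [← mul_pow]
    apply pow_le_one₀ <;> nlinarith
  have h3 : 0 ≤ (1 + h) ^ k := by positivity
  nlinarith

theorem nat_mul_le {h : ℝ} (h0 : 0 ≤ h) {k m : ℕ} (hkm : k ≤ m) (hm : 16 * h * 4 ^ m ≤ 1) :
    k * h ≤ 1 / 2 := by
  have h1 : (m : ℝ) ≤ 4 ^ m := by
    have := (Nat.lt_pow_self (n := m) (a := 4) (by norm_num)).le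
    exact_mod_cast this
  have h2 : (k : ℝ) ≤ m := by exact_mod_cast hkm
  have h3 : (k : ℝ) * h ≤ 4 ^ m * h := mul_le_mul_of_nonneg_right (h2.trans h1) h0
  nlinarith

section

variable {β : ℂ} (hβ : ‖β - 2‖ ≤ 1 / 1000)

include hβ

theorem first_step {z : ℂ} (hz : ‖z‖ ^ 2 ≤ 8 * ‖et β‖) : ‖q β z + β‖ ≤ 9 * ‖et β‖ := by
  rw [q_add]
  refine (norm_add_le _ _).trans ?_
  rw [norm_pow]
  linarith

theorem second_step {z : ℂ} (hz : ‖z‖ ^ 2 ≤ 8 * ‖et β‖) :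
    ‖q β (q β z) - β‖ ≤ 37 * ‖et β‖ := by
  have h1 := first_step hβ hz
  have h2 := et_le hβ
  have h3 := two_beta_le hβ
  rw [q_sub, norm_mul]
  have h4 : ‖q β z - β‖ ≤ 2 * ‖β‖ + ‖q β z + β‖ := by
    have : q β z - β = (q β z + β) - 2 * β := by ring
    rw [this]
    refine (norm_sub_le _ _).trans ?_
    rw [norm_mul, Complex.norm_ofNat]
    linarith
  have h0 := norm_nonneg (et β)
  calc ‖q β z - β‖ * ‖q β z + β‖ ≤ (2 * ‖β‖ + ‖q β z + β‖) * (9 * ‖et β‖) :=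
        mul_le_mul h4 h1 (norm_nonneg _) (by positivity)
    _ ≤ (4 * (1 + ‖et β‖) + 9 * ‖et β‖) * (9 * ‖et β‖) := by gcongr
    _ ≤ 37 * ‖et β‖ := by nlinarith

/-- The orbit of a point near `0` during its passage near `β`. -/
theorem passage {z : ℂ} (hz : ‖z‖ ^ 2 ≤ 8 * ‖et β‖) {m : ℕ} (hm : 16 * ‖et β‖ * 4 ^ m ≤ 1)
    {j : ℕ} (hj1 : 1 ≤ j) (hjm : j < m) : ‖(q β)^[j] (q β z) - β‖ ≤ 1 / 2 := by
  obtain ⟨i, rfl⟩ : ∃ i, j = i + 1 := ⟨j - 1, by omega⟩
  have h0 := norm_nonneg (et β)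
  rw [Function.iterate_succ_apply]
  apply near_beta (L := 4 * (1 + ‖et β‖)) (by linarith) (two_beta_le hβ)
  have h1 := second_step hβ hz
  have h2 : (1 + ‖et β‖) ^ i ≤ 2 := pow_le_two h0 (nat_mul_le h0 (by omega : i ≤ m) hm)
  have h3 : (4 : ℝ) ^ i * 16 ≤ 4 ^ m := by
    rw [show (16 : ℝ) = 4 ^ 2 by norm_num, ← pow_add]
    exact pow_le_pow_right₀ (by norm_num) (by omega)
  rw [mul_pow]
  calc 4 ^ i * (1 + ‖et β‖) ^ i * ‖q β (q β z) - β‖ ≤ 4 ^ i * 2 * (37 * ‖et β‖) := by gcongr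
    _ ≤ 2 / 5 := by nlinarith

theorem passage_norm {z : ℂ} (hz : ‖z‖ ^ 2 ≤ 8 * ‖et β‖) {m : ℕ} (hm : 16 * ‖et β‖ * 4 ^ m ≤ 1)
    {j : ℕ} (hjm : j < m) : 1 ≤ ‖(q β)^[j] (q β z)‖ := by
  have hb := norm_beta_ge hβ
  have he := et_le hβ
  rcases Nat.eq_zero_or_pos j with rfl | hj
  · simp only [Function.iterate_zero, id_eq]
    have h1 := first_step hβ hz
    have h2 : ‖β‖ ≤ ‖q β z + β‖ + ‖q β z‖ := by
      have : β = (q β z + β) - q β z := by ring
      calc ‖β‖ = ‖(q β z + β) - q β z‖ := by rw [← this]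
        _ ≤ _ := norm_sub_le _ _
    linarith
  · have h1 := passage hβ hz hm hj hjm
    set v := (q β)^[j] (q β z)
    have h2 : ‖β‖ ≤ ‖v‖ + ‖v - β‖ := by
      have : β = v - (v - β) := by ring
      calc ‖β‖ = ‖v - (v - β)‖ := by rw [← this]
        _ ≤ _ := norm_sub_le _ _
    linarith

/-- Injectivity of the passage. -/
theorem passage_inj {z z' : ℂ} (hz : ‖z‖ ^ 2 ≤ 8 * ‖et β‖) (hz' : ‖z'‖ ^ 2 ≤ 8 * ‖et β‖)
    {m : ℕ} (hm : 16 * ‖et β‖ * 4 ^ m ≤ 1)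
    (h : (q β)^[m] (q β z) = (q β)^[m] (q β z')) : z ^ 2 = z' ^ 2 := by
  have hb := norm_beta_ge hβ
  have he := et_le hβ
  have key : ∀ j ≤ m, (q β)^[j] (q β z) = (q β)^[j] (q β z') → q β z = q β z' := by
    intro j
    induction j with
    | zero => intro _ h; simpa using h
    | succ j ih =>
      intro hj h
      apply ih (by omega)
      rw [Function.iterate_succ_apply', Function.iterate_succ_apply'] at h
      set v := (q β)^[j] (q β z) with hv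
      set v' := (q β)^[j] (q β z') with hv'
      have h1 : (v - v') * (v + v') = 0 := by
        have : q β v - q β v' = 0 := sub_eq_zero.mpr h
        unfold q at this
        linear_combination this
      rcases mul_eq_zero.mp h1 with h2 | h2
      · exact sub_eq_zero.mp h2
      · exfalso
        rcases Nat.eq_zero_or_pos j with hj0 | hj0
        · have h3 := first_step hβ hz
          have h4 := first_step hβ hz'
          have h5 : v = q β z := by rw [hv, hj0]; rfl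
          have h6 : v' = q β z' := by rw [hv', hj0]; rfl
          rw [← h5] at h3
          rw [← h6] at h4
          have h7 : 2 * β = (v + β) + (v' + β) := by linear_combination -h2
          have h8 : 2 * ‖β‖ ≤ ‖v + β‖ + ‖v' + β‖ := by
            calc 2 * ‖β‖ = ‖2 * β‖ := by rw [norm_mul, Complex.norm_ofNat]
              _ = ‖(v + β) + (v' + β)‖ := by rw [h7]
              _ ≤ _ := norm_add_le _ _
          linarith
        · have h3 := passage hβ hz hm hj0 (by omega : j < m)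
          have h4 := passage hβ hz' hm hj0 (by omega : j < m)
          rw [← hv] at h3
          rw [← hv'] at h4
          have h7 : -(2 * β) = (v - β) + (v' - β) := by linear_combination -h2
          have h8 : 2 * ‖β‖ ≤ ‖v - β‖ + ‖v' - β‖ := by
            calc 2 * ‖β‖ = ‖-(2 * β)‖ := by rw [norm_neg, norm_mul, Complex.norm_ofNat]
              _ = ‖(v - β) + (v' - β)‖ := by rw [h7]
              _ ≤ _ := norm_add_le _ _
          linarith
  have h1 := key m le_rfl h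
  unfold q at h1
  linear_combination h1

/-- The expansion of the passage. -/
theorem passage_exp {z : ℂ} (hz : ‖z‖ ^ 2 ≤ 8 * ‖et β‖) (h0 : 0 < ‖et β‖)
    {m : ℕ} (hm : 16 * ‖et β‖ * 4 ^ m ≤ 1) (hm' : 1 ≤ 64 * ‖et β‖ * 4 ^ m) :
    ‖z‖ ^ 2 / (288 * ‖et β‖ ^ 2) * R β ((q β)^[m + 1] z) ≤
      ‖deriv ((q β)^[m + 1]) z‖ ^ 2 * R β z := by
  set h := ‖et β‖ with hh
  have h1 := orbit_R (β := β) (w := q β z) m (fun j hj => passage_norm hβ hz hm hj)
  have h2 : R β (q β z) ≤ R β z * (9 * h) := by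
    rw [R_q]
    apply mul_le_mul_of_nonneg_left _ (R_nonneg _ _)
    rw [← q_add]
    exact first_step hβ hz
  have h3 : (1 + h) ^ m ≤ 2 := pow_le_two h0.le (nat_mul_le h0.le le_rfl hm)
  rw [Function.iterate_succ_apply, deriv_iter_succ, norm_mul, norm_mul, Complex.norm_ofNat]
  rw [← hh] at h1
  set A := ‖deriv ((q β)^[m]) (q β z)‖ with hA
  have hA0 : 0 ≤ A := norm_nonneg _
  have hRz := R_nonneg β z
  have hRz' := R_nonneg β (q β z)
  have hz0 := norm_nonneg z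
  have h4m : (0 : ℝ) < 4 ^ m := by positivity
  have h5 : R β ((q β)^[m] (q β z)) ≤ 18 * h / 4 ^ m * (A ^ 2 * R β z) := by
    refine h1.trans ?_
    rw [div_pow]
    calc (1 + h) ^ m / 4 ^ m * (A ^ 2 * R β (q β z)) ≤ 2 / 4 ^ m * (A ^ 2 * (R β z * (9 * h))) := by
          gcongr
      _ = 18 * h / 4 ^ m * (A ^ 2 * R β z) := by ring
  calc ‖z‖ ^ 2 / (288 * h ^ 2) * R β ((q β)^[m] (q β z))
      ≤ ‖z‖ ^ 2 / (288 * h ^ 2) * (18 * h / 4 ^ m * (A ^ 2 * R β z)) := by gcongr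
    _ = (1 / (64 * h * 4 ^ m)) * ((A * (2 * ‖z‖)) ^ 2 * R β z) := by
        field_simp
        ring
    _ ≤ 1 * ((A * (2 * ‖z‖)) ^ 2 * R β z) := by
        apply mul_le_mul_of_nonneg_right _ (by positivity)
        rw [div_le_one (by positivity)]
        exact hm'
    _ = (A * (2 * ‖z‖)) ^ 2 * R β z := one_mul _

/-- Expansion outside of the critical disc. -/
theorem out_exp {z : ℂ} (hz : 8 * ‖et β‖ ≤ ‖z‖ ^ 2) :
    32 / 9 * R β (q β z) ≤ ‖2 * z‖ ^ 2 * R β z := by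
  rw [R_q, norm_mul, Complex.norm_ofNat]
  have h1 : ‖z ^ 2 + et β‖ ≤ 9 / 8 * ‖z‖ ^ 2 := by
    refine (norm_add_le _ _).trans ?_
    rw [norm_pow]
    linarith
  have hR := R_nonneg β z
  nlinarith [mul_le_mul_of_nonneg_left h1 hR]

end

end Pool.Agent.TH136.Tip
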