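import Mathlib
import Pool.Agent.TH136.Tip.Push
import Pool.Agent.TH136.Tip.Pass

set_option autoImplicit false

open MeasureTheory Set Filter Metric

namespace Pool.Agent.TH136.Tip

/-- The density `1 / |z ^ 2 - β ^ 2|`. -/
noncomputable def rho (β z : ℂ) : ENNReal := (ENNReal.ofReal (R β z))⁻¹

/-- The measure with density `rho β`. -/
noncomputable def mu (β : ℂ) (S : Set ℂ) : ENNReal := ∫⁻ z in S, rho β z

theorem measurable_rho (β : ℂ) : Measurable (rho β) := by
  unfold rho R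
  fun_prop

theorem mu_mono (β : ℂ) {S T : Set ℂ} (h : S ⊆ T) : mu β S ≤ mu β T := lintegral_mono_set h

theorem mu_union (β : ℂ) (S T : Set ℂ) : mu β (S ∪ T) ≤ mu β S + mu β T := lintegral_union_le _ _ _

theorem inv_ineq {a b p κ : ℝ} (ha : 0 ≤ a) (hb : 0 ≤ b) (hp : 0 < p) (hκ : 0 ≤ κ)
    (h : κ * b ≤ p * a) :
    ENNReal.ofReal κ * (ENNReal.ofReal a)⁻¹ ≤ ENNReal.ofReal p * (ENNReal.ofReal b)⁻¹ := by
  rcases hb.eq_or_lt with hb0 | hb0
  · rw [← hb0, ENNReal.ofReal_zero, ENNReal.inv_zero, ENNReal.mul_top]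
    · exact le_top
    · exact (ENNReal.ofReal_pos.mpr hp).ne'
  rcases hκ.eq_or_lt with hκ0 | hκ0
  · rw [← hκ0, ENNReal.ofReal_zero, zero_mul]
    exact bot_le
  have ha0 : 0 < a := by
    rcases ha.eq_or_lt with h0 | h0
    · rw [← h0, mul_zero] at h
      nlinarith [mul_pos hκ0 hb0]
    · exact h0
  rw [← ENNReal.ofReal_inv_of_pos ha0, ← ENNReal.ofReal_inv_of_pos hb0, ← ENNReal.ofReal_mul hκ,
    ← ENNReal.ofReal_mul hp.le]
  apply ENNReal.ofReal_le_ofReal
  rw [← div_eq_mul_inv, ← div_eq_mul_inv, div_le_div_iff₀ ha0 hb0]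
  exact h

theorem sq_inj_pos {z z' : ℂ} (h : z ^ 2 = z' ^ 2) (h1 : 0 < z.re) (h2 : 0 < z'.re) : z = z' := by
  have h3 : (z - z') * (z + z') = 0 := by linear_combination h
  rcases mul_eq_zero.mp h3 with h4 | h4
  · exact sub_eq_zero.mp h4
  · exfalso
    have := congrArg Complex.re h4
    simp at this
    linarith

theorem sq_inj_neg {z z' : ℂ} (h : z ^ 2 = z' ^ 2) (h1 : z.re < 0) (h2 : z'.re < 0) : z = z' := by
  have h3 : (z - z') * (z + z') = 0 := by linear_combination h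
  rcases mul_eq_zero.mp h3 with h4 | h4
  · exact sub_eq_zero.mp h4
  · exfalso
    have := congrArg Complex.re h4
    simp at this
    linarith

/-- The general one-step inequality. -/
theorem mu_push {β : ℂ} {n : ℕ} {κ : ℝ} (hκ : 0 ≤ κ) {A S : Set ℂ} (hA : MeasurableSet A)
    (hinj : ∀ z ∈ A, ∀ z' ∈ A, (q β)^[n] z = (q β)^[n] z' → z ^ 2 = z' ^ 2)
    (hAS : ∀ z ∈ A, (q β)^[n] z ∈ S)
    (hd : ∀ z ∈ A, deriv ((q β)^[n]) z ≠ 0)
    (h : ∀ z ∈ A, κ * R β ((q β)^[n] z) ≤ ‖deriv ((q β)^[n]) z‖ ^ 2 * R β z) :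
    ENNReal.ofReal κ * mu β A ≤ 2 * mu β S := by
  have h1 := push_le (differentiable_iter β n) hA (S := S)
    (fun z hz z' hz' he => sq_inj_pos (hinj z hz.1 z' hz'.1 he) hz.2 hz'.2)
    (fun z hz z' hz' he => sq_inj_neg (hinj z hz.1 z' hz'.1 he) hz.2 hz'.2) hAS (rho β)
  refine le_trans ?_ h1
  unfold mu
  rw [← lintegral_const_mul _ (measurable_rho β)]
  apply setLIntegral_mono' hA
  intro z hz
  exact inv_ineq (R_nonneg _ _) (R_nonneg _ _) (by have := norm_pos_iff.mpr (hd z hz); positivity) hκ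
    (h z hz)

section

variable {β : ℂ} (hβ : ‖β - 2‖ ≤ 1 / 1000) (h0 : 0 < ‖et β‖)

include hβ h0

theorem mu_out {A S : Set ℂ} (hA : MeasurableSet A) (hAD : ∀ z ∈ A, 8 * ‖et β‖ ≤ ‖z‖ ^ 2)
    (hAS : ∀ z ∈ A, q β z ∈ S) :
    ENNReal.ofReal (32 / 9) * mu β A ≤ 2 * mu β S := by
  have hder : ∀ z, deriv ((q β)^[1]) z = 2 * z := by
    intro z
    rw [Function.iterate_one]
    exact (hasDerivAt_q β z).deriv
  apply mu_push (n := 1) (by norm_num) hA
  · intro z _ z' _ h
    rw [Function.iterate_one] at h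
    unfold q at h
    linear_combination h
  · intro z hz
    exact hAS z hz
  · intro z hz h
    rw [hder] at h
    have h1 := hAD z hz
    have h2 : z = 0 := by simpa using h
    rw [h2, norm_zero] at h1
    nlinarith
  · intro z hz
    rw [hder, Function.iterate_one]
    exact out_exp hβ (hAD z hz)

theorem mu_pass {A S : Set ℂ} (hA : MeasurableSet A) (hAD : ∀ z ∈ A, ‖z‖ ^ 2 ≤ 8 * ‖et β‖)
    {M : ℝ} (hM : 0 < M) (hAM : ∀ z ∈ A, M * ‖et β‖ ^ 2 ≤ ‖z‖ ^ 2) {m : ℕ}
    (hm : 16 * ‖et β‖ * 4 ^ m ≤ 1) (hm' : 1 ≤ 64 * ‖et β‖ * 4 ^ m)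
    (hAS : ∀ z ∈ A, (q β)^[m + 1] z ∈ S) :
    ENNReal.ofReal (M / 288) * mu β A ≤ 2 * mu β S := by
  apply mu_push (n := m + 1) (by positivity) hA
  · intro z hz z' hz' h
    rw [Function.iterate_succ_apply, Function.iterate_succ_apply] at h
    exact passage_inj hβ (hAD z hz) (hAD z' hz') hm h
  · exact hAS
  · intro z hz
    rw [deriv_iter_succ]
    have hz0 : z ≠ 0 := by
      rintro rfl
      have := hAM 0 hz
      rw [norm_zero] at this
      have h2 : 0 < M * ‖et β‖ ^ 2 := by positivity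
      norm_num at this
      linarith
    apply mul_ne_zero _ (mul_ne_zero two_ne_zero hz0)
    have key : ∀ j ≤ m, deriv ((q β)^[j]) (q β z) ≠ 0 := by
      intro j
      induction j with
      | zero =>
        intro _
        rw [Function.iterate_zero, deriv_id]
        exact one_ne_zero
      | succ j ih =>
        intro hj
        rw [deriv_iter_succ']
        apply mul_ne_zero (mul_ne_zero two_ne_zero _) (ih (by omega))
        intro h1
        have h2 := passage_norm hβ (hAD z hz) hm (by omega : j < m)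
        rw [h1, norm_zero] at h2
        linarith
    exact key m le_rfl
  · intro z hz
    refine le_trans ?_ (passage_exp hβ (hAD z hz) h0 hm hm')
    apply mul_le_mul_of_nonneg_right _ (R_nonneg _ _)
    have h1 := hAM z hz
    rw [div_le_div_iff₀ (by norm_num) (by positivity)]
    nlinarith

omit h0 in
theorem mu_small {r : ℝ} (hr : 0 ≤ r) (hr1 : r ≤ 1) :
    mu β (closedBall 0 r) ≤ ENNReal.ofReal (Real.pi * r ^ 2) := by
  have hb := norm_beta_ge hβ
  have h1 : mu β (closedBall 0 r) ≤ ∫⁻ _ in closedBall (0 : ℂ) r, 1 := by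
    apply setLIntegral_mono' measurableSet_closedBall
    intro z hz
    rw [mem_closedBall_zero_iff] at hz
    unfold rho
    rw [ENNReal.inv_le_one, ← ENNReal.ofReal_one]
    apply ENNReal.ofReal_le_ofReal
    unfold R
    have h2 : ‖β ^ 2‖ ≤ ‖z ^ 2‖ + ‖z ^ 2 - β ^ 2‖ := by
      calc ‖β ^ 2‖ = ‖z ^ 2 - (z ^ 2 - β ^ 2)‖ := by congr 1; ring
        _ ≤ _ := norm_sub_le _ _
    rw [norm_pow, norm_pow] at h2
    have h3 := norm_nonneg z
    nlinarith
  refine h1.trans (le_of_eq ?_)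
  rw [setLIntegral_one, Complex.volume_closedBall, mul_comm, ENNReal.ofReal_mul Real.pi_pos.le,
    ENNReal.ofReal_pow hr]
  congr 1
  exact (ENNReal.ofReal_coe_nnreal).symm

end

end Pool.Agent.TH136.Tip
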