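import Mathlib
import Pool.Agent.TH136.Tip.Mu

set_option autoImplicit false

open MeasureTheory Set Filter Metric

namespace Pool.Agent.TH136.Tip

theorem volume_im_zero : volume {z : ℂ | z.im = 0} = 0 := by
  have h := Measure.addHaar_submodule (volume : Measure ℂ) (LinearMap.ker Complex.imLm) (by
    intro h
    have h1 : (Complex.I : ℂ) ∈ LinearMap.ker Complex.imLm := by rw [h]; trivial
    simp at h1)
  convert h using 2
  ext z
  simp

/-- The integral of `1 / |z|` over discs. -/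
theorem int_inv (r : ℝ) : ∫⁻ z in closedBall (0 : ℂ) r, (ENNReal.ofReal ‖z‖)⁻¹ ≤
    4 * volume (closedBall (0 : ℂ) (√r)) := by
  rcases lt_or_ge r 0 with hr | hr
  · rw [closedBall_eq_empty.mpr hr]
    simp
  have hP : MeasurableSet {z : ℂ | 0 < z.re} := measurableSet_lt measurable_const Complex.measurable_re
  set A : Set ℂ := closedBall (0 : ℂ) (√r) ∩ {z | 0 < z.re} with hA
  have hAm : MeasurableSet A := measurableSet_closedBall.inter hP
  have hF : Differentiable ℂ (fun z : ℂ => z ^ 2) := by fun_prop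
  have hder : ∀ z : ℂ, deriv (fun z : ℂ => z ^ 2) z = 2 * z := by
    intro z
    simp
  have h1 := lintegral_holo hF hAm (fun z hz z' hz' h => sq_inj_pos h hz.2 hz'.2)
    (fun w => (ENNReal.ofReal ‖w‖)⁻¹)
  have hsub : closedBall (0 : ℂ) r ⊆ ((fun z : ℂ => z ^ 2) '' A) ∪ {z : ℂ | z.im = 0} := by
    intro w hw
    rw [mem_closedBall_zero_iff] at hw
    by_cases h : w.im = 0
    · exact Or.inr h
    left
    obtain ⟨z, hz⟩ : ∃ z : ℂ, z ^ 2 = w := IsAlgClosed.exists_pow_nat_eq w (by norm_num)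
    have hzn : ‖z‖ ≤ √r := by
      apply Real.le_sqrt_of_sq_le
      rw [← norm_pow, hz]
      exact hw
    have hre : z.re ≠ 0 := by
      intro h2
      apply h
      rw [← hz, pow_two, Complex.mul_im, h2]
      ring
    rcases lt_or_gt_of_ne hre with h3 | h3
    · refine ⟨-z, ⟨?_, ?_⟩, ?_⟩
      · rwa [mem_closedBall_zero_iff, norm_neg]
      · simp only [Set.mem_ofPred_eq, Complex.neg_re]; linarith
      · simp only [neg_sq]; exact hz
    · refine ⟨z, ⟨?_, h3⟩, hz⟩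
      rwa [mem_closedBall_zero_iff]
  calc ∫⁻ z in closedBall (0 : ℂ) r, (ENNReal.ofReal ‖z‖)⁻¹
      ≤ ∫⁻ z in ((fun z : ℂ => z ^ 2) '' A) ∪ {z : ℂ | z.im = 0}, (ENNReal.ofReal ‖z‖)⁻¹ :=
        lintegral_mono_set hsub
    _ ≤ (∫⁻ z in (fun z : ℂ => z ^ 2) '' A, (ENNReal.ofReal ‖z‖)⁻¹) +
          ∫⁻ z in {z : ℂ | z.im = 0}, (ENNReal.ofReal ‖z‖)⁻¹ := lintegral_union_le _ _ _
    _ = ∫⁻ z in A, ENNReal.ofReal (‖deriv (fun z : ℂ => z ^ 2) z‖ ^ 2) *
          (ENNReal.ofReal ‖z ^ 2‖)⁻¹ := by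
        rw [Measure.restrict_eq_zero.mpr volume_im_zero, lintegral_zero_measure, add_zero, h1]
    _ = ∫⁻ z in A, 4 := by
        apply setLIntegral_congr_fun hAm
        intro z hz
        have hz0 : 0 < ‖z‖ := by
          rw [norm_pos_iff]
          rintro rfl
          have := hz.2
          simp at this
        have hz2 : 0 < ‖z ^ 2‖ := by rw [norm_pow]; positivity
        simp only [hder]
        rw [← ENNReal.ofReal_inv_of_pos hz2, ← ENNReal.ofReal_mul (by positivity), norm_mul,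
          Complex.norm_ofNat, norm_pow,
          show (2 * ‖z‖) ^ 2 * (‖z‖ ^ 2)⁻¹ = 4 by field_simp; ring]
        norm_num
    _ = 4 * volume A := by rw [setLIntegral_const]
    _ ≤ 4 * volume (closedBall (0 : ℂ) (√r)) := by
        gcongr
        exact inter_subset_left

theorem int_inv_shift (r : ℝ) {w : ℂ} (hw : ‖w‖ ≤ 3) :
    ∫⁻ z in closedBall (0 : ℂ) r, (ENNReal.ofReal ‖z - w‖)⁻¹ ≤
      4 * volume (closedBall (0 : ℂ) (√(r + 3))) := by
  refine le_trans ?_ (int_inv (r + 3))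
  have h1 : ∫⁻ z in closedBall (0 : ℂ) r, (ENNReal.ofReal ‖z - w‖)⁻¹ =
      ∫⁻ z, (closedBall (0 : ℂ) r).indicator (fun z => (ENNReal.ofReal ‖z - w‖)⁻¹) z := by
    rw [lintegral_indicator measurableSet_closedBall]
  have h2 : ∫⁻ z in closedBall (0 : ℂ) (r + 3), (ENNReal.ofReal ‖z‖)⁻¹ =
      ∫⁻ z, (closedBall (0 : ℂ) (r + 3)).indicator (fun z => (ENNReal.ofReal ‖z‖)⁻¹) (z - w) := by
    rw [lintegral_sub_right_eq_self
      (fun z => (closedBall (0 : ℂ) (r + 3)).indicator (fun z => (ENNReal.ofReal ‖z‖)⁻¹) z) w,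
      lintegral_indicator measurableSet_closedBall]
  rw [h1, h2]
  apply lintegral_mono
  intro z
  by_cases hz : z ∈ closedBall (0 : ℂ) r
  · have hz2 : z - w ∈ closedBall (0 : ℂ) (r + 3) := by
      rw [mem_closedBall_zero_iff] at hz ⊢
      exact (norm_sub_le _ _).trans (by linarith)
    simp only [indicator_of_mem hz, indicator_of_mem hz2, le_refl]
  · rw [indicator_of_notMem hz]
    exact bot_le

/-- The mass of discs. -/
theorem mu_fin (r : ℝ) : ∃ C : ℝ, 0 ≤ C ∧ ∀ β : ℂ, ‖β - 2‖ ≤ 1 / 1000 →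
    mu β (closedBall 0 r) ≤ ENNReal.ofReal C := by
  have hfin : 4 * volume (closedBall (0 : ℂ) (√(r + 3))) ≠ ⊤ :=
    ENNReal.mul_ne_top (by norm_num) (isCompact_closedBall _ _).measure_lt_top.ne
  refine ⟨(4 * volume (closedBall (0 : ℂ) (√(r + 3)))).toReal +
    (4 * volume (closedBall (0 : ℂ) (√(r + 3)))).toReal, by positivity, ?_⟩
  intro β hβ
  have hb := norm_beta_ge hβ
  have hb2 := norm_beta_le hβ
  have hb3 : ‖β‖ ≤ 3 := by linarith
  rw [ENNReal.ofReal_add ENNReal.toReal_nonneg ENNReal.toReal_nonneg, ENNReal.ofReal_toReal hfin]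
  have h1 : mu β (closedBall 0 r) ≤ ∫⁻ z in closedBall (0 : ℂ) r,
      ((ENNReal.ofReal ‖z - β‖)⁻¹ + (ENNReal.ofReal ‖z - -β‖)⁻¹) := by
    apply lintegral_mono
    intro z
    unfold rho R
    have h2 : z ^ 2 - β ^ 2 = (z - β) * (z - -β) := by ring
    rw [h2, norm_mul]
    have h3 : 2 ≤ ‖z - β‖ + ‖z - -β‖ := by
      have h4 : 2 * ‖β‖ ≤ ‖z - β‖ + ‖z - -β‖ := by
        calc 2 * ‖β‖ = ‖2 * β‖ := by rw [norm_mul, Complex.norm_ofNat]
          _ = ‖(z - -β) - (z - β)‖ := by congr 1; ring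
          _ ≤ ‖z - -β‖ + ‖z - β‖ := norm_sub_le _ _
          _ = _ := add_comm _ _
      linarith
    rcases le_or_gt 1 ‖z - β‖ with h4 | h4
    · refine le_trans ?_ le_add_self
      apply ENNReal.inv_le_inv.mpr
      apply ENNReal.ofReal_le_ofReal
      nlinarith [norm_nonneg (z - -β)]
    · refine le_trans ?_ le_self_add
      apply ENNReal.inv_le_inv.mpr
      apply ENNReal.ofReal_le_ofReal
      nlinarith [norm_nonneg (z - β)]
  refine h1.trans ?_
  rw [lintegral_add_left (by fun_prop)]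
  exact add_le_add (int_inv_shift r hb3) (int_inv_shift r (by rwa [norm_neg]))

end Pool.Agent.TH136.Tip
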