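import Mathlib

set_option autoImplicit false

open Set Filter Metric

namespace Pool.Agent.TH136.Tip

theorem seq_geo {a b : ℕ → ℝ} (hb : Antitone b) (hb0 : ∀ n, 0 ≤ b n)
    (h1 : ∀ n, a (n + 1) ≤ 9 / 16 * a n + b (n + 1)) (k N : ℕ) :
    a (k + N) ≤ (9 / 16) ^ N * a k + 16 / 7 * b (k + 1) := by
  induction N with
  | zero =>
    have := hb0 (k + 1)
    simp only [add_zero, pow_zero, one_mul]
    linarith
  | succ N ih =>
    have h2 := h1 (k + N)
    have h3 : b (k + N + 1) ≤ b (k + 1) := hb (by omega)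
    rw [← add_assoc]
    calc a (k + N + 1) ≤ 9 / 16 * a (k + N) + b (k + N + 1) := h2
      _ ≤ 9 / 16 * ((9 / 16) ^ N * a k + 16 / 7 * b (k + 1)) + b (k + 1) := by linarith
      _ = (9 / 16) ^ (N + 1) * a k + 16 / 7 * b (k + 1) := by ring

/-- One round of the recursion. -/
theorem seq_step {a b : ℕ → ℝ} {A h : ℝ} {m N : ℕ} (h0 : 0 < h) (hhA : h * √A ≤ 1)
    (ha0 : ∀ n, 0 ≤ a n) (haA : ∀ n, a n ≤ A) (ha : Antitone a)
    (hb0 : ∀ n, 0 ≤ b n) (hb : Antitone b)
    (h1 : ∀ n, a (n + 1) ≤ 9 / 16 * a n + b (n + 1))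
    (h2 : ∀ n M, 0 < M → M * h ^ 2 ≤ 1 →
      b (n + m + 1) ≤ Real.pi * (M * h ^ 2) + 576 / M * a n)
    (hN : (9 / 16 : ℝ) ^ N ≤ h) (n : ℕ) :
    a (n + (m + N)) ≤ (√A + 1326) * h * √(a n) := by
  have hsA : 0 ≤ √A := Real.sqrt_nonneg _
  rcases (ha0 n).eq_or_lt with hz | hpos
  · have h3 : a (n + (m + N)) ≤ a n := ha (by omega)
    rw [← hz, Real.sqrt_zero, mul_zero]
    linarith
  set s := √(a n) with hs
  have hspos : 0 < s := Real.sqrt_pos.mpr hpos
  have hss : s * s = a n := Real.mul_self_sqrt (ha0 n)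
  have hsle : s ≤ √A := Real.sqrt_le_sqrt (haA n)
  have h3 := h2 n (s / h) (by positivity) (by
    have : s / h * h ^ 2 = h * s := by field_simp
    rw [this]
    nlinarith)
  have h4 : Real.pi * (s / h * h ^ 2) + 576 / (s / h) * a n = (Real.pi + 576) * (h * s) := by
    rw [← hss]
    field_simp
  rw [h4] at h3
  have h5 := seq_geo hb hb0 h1 (n + m) N
  have h6 : a (n + m) ≤ a n := ha (by omega)
  have h7 : (9 / 16 : ℝ) ^ N * a (n + m) ≤ h * a n :=
    mul_le_mul hN h6 (ha0 _) h0.le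
  have hpi : Real.pi ≤ 4 := Real.pi_le_four
  have hhs : 0 ≤ h * s := by positivity
  rw [← add_assoc]
  calc a (n + m + N) ≤ h * a n + 16 / 7 * ((Real.pi + 576) * (h * s)) := by linarith
    _ ≤ h * (√A * s) + 16 / 7 * (580 * (h * s)) := by
        rw [← hss]
        gcongr
        linarith
    _ ≤ (√A + 1326) * h * s := by nlinarith

/-- The iterated recursion. -/
theorem seq_iter {u : ℕ → ℝ} {D h l : ℝ} (hD : 0 ≤ D) (h0 : 0 < h)
    (hu : ∀ i, u (i + 1) ≤ D * h * √(u i)) (hu0 : u 0 ≤ (D * h) ^ 2 * Real.exp l) (i : ℕ) :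
    u i ≤ (D * h) ^ 2 * Real.exp (l / 2 ^ i) := by
  induction i with
  | zero => simpa using hu0
  | succ i ih =>
    refine (hu i).trans ?_
    have h1 : √(u i) ≤ D * h * Real.exp (l / 2 ^ (i + 1)) := by
      refine (Real.sqrt_le_sqrt ih).trans (le_of_eq ?_)
      have h2 : (D * h) ^ 2 * Real.exp (l / 2 ^ i) = (D * h * Real.exp (l / 2 ^ (i + 1))) ^ 2 := by
        rw [mul_pow (D * h) (Real.exp _), ← Real.exp_nat_mul]
        congr 2
        push_cast
        rw [pow_succ]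
        field_simp
      rw [h2]
      exact Real.sqrt_sq (by positivity)
    calc D * h * √(u i) ≤ D * h * (D * h * Real.exp (l / 2 ^ (i + 1))) := by gcongr
      _ = (D * h) ^ 2 * Real.exp (l / 2 ^ (i + 1)) := by ring

/-- The sequence is eventually of order `h ^ 2`. -/
theorem seq_main {a b : ℕ → ℝ} {A h : ℝ} {m : ℕ} (hA : 0 ≤ A) (h0 : 0 < h) (hhA : h * √A ≤ 1)
    (hh : h ≤ 1 / 400)
    (ha0 : ∀ n, 0 ≤ a n) (haA : ∀ n, a n ≤ A) (ha : Antitone a)
    (hb0 : ∀ n, 0 ≤ b n) (hb : Antitone b)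
    (h1 : ∀ n, a (n + 1) ≤ 9 / 16 * a n + b (n + 1))
    (h2 : ∀ n M, 0 < M → M * h ^ 2 ≤ 1 →
      b (n + m + 1) ≤ Real.pi * (M * h ^ 2) + 576 / M * a n)
    (hm : 16 * h * 4 ^ m ≤ 1) :
    ∃ n : ℕ, (n : ℝ) ≤ 8 * Real.log h⁻¹ * (1 + Real.log (Real.log h⁻¹)) ∧
      a n ≤ 3 * (√A + 1326) ^ 2 * h ^ 2 := by
  set l := Real.log h⁻¹ with hl
  have hl1 : 4 ≤ l := by
    rw [hl, Real.le_log_iff_exp_le (by positivity)]
    have h3 : (400 : ℝ) ≤ h⁻¹ := by
      rw [le_inv_comm₀ (by norm_num) h0]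
      linarith
    have h4 : Real.exp 4 ≤ 400 := by
      have h5 : Real.exp 4 = (Real.exp 1) ^ 4 := by rw [← Real.exp_nat_mul]; norm_num
      rw [h5]
      have h6 := Real.exp_one_lt_d9
      have h7 : Real.exp 1 ≤ 3 := by linarith
      calc (Real.exp 1) ^ 4 ≤ 3 ^ 4 := pow_le_pow_left₀ (Real.exp_pos 1).le h7 4
        _ ≤ 400 := by norm_num
    linarith
  have hel : Real.exp (-l) = h := by
    rw [hl, Real.exp_neg, Real.exp_log (by positivity), inv_inv]
  -- the number `N`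
  obtain ⟨N, hN1, hN2⟩ : ∃ N : ℕ, 2 * l ≤ N ∧ (N : ℝ) ≤ 2 * l + 1 :=
    ⟨⌈2 * l⌉₊, Nat.le_ceil _, (Nat.ceil_lt_add_one (by linarith)).le⟩
  have hN : (9 / 16 : ℝ) ^ N ≤ h := by
    have h3 : (9 / 16 : ℝ) ≤ Real.exp (-(1 / 2)) := by
      have h4 : 9 / 16 ≤ 1 - (1 / 2 : ℝ) + (1/2)^2/2 - (1/2)^3/6 := by norm_num
      have h5 : (Real.exp (1 / 2)) ^ 2 = Real.exp 1 := by rw [← Real.exp_nat_mul]; norm_num
      have h6 := Real.exp_one_lt_d9
      have h7 : Real.exp (1 / 2) ≤ 16 / 9 := by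
        by_contra hcon
        push Not at hcon
        have h8 : (16 / 9 : ℝ) ^ 2 < (Real.exp (1 / 2)) ^ 2 := pow_lt_pow_left₀ hcon (by norm_num) (by norm_num)
        rw [h5] at h8
        norm_num at h8
        linarith
      rw [Real.exp_neg, le_inv_comm₀ (by norm_num) (Real.exp_pos _)]
      norm_num at h7 ⊢
      linarith
    calc (9 / 16 : ℝ) ^ N ≤ (Real.exp (-(1 / 2))) ^ N := pow_le_pow_left₀ (by norm_num) h3 N
      _ = Real.exp (-(N / 2)) := by rw [← Real.exp_nat_mul]; congr 1; ring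
      _ ≤ Real.exp (-l) := Real.exp_le_exp.mpr (by linarith)
      _ = h := hel
  -- the number `m`
  have hml : (m : ℝ) ≤ l := by
    have h3 : Real.exp m ≤ 4 ^ m := by
      rw [show (m : ℝ) = m * 1 by ring, Real.exp_nat_mul]
      apply pow_le_pow_left₀ (Real.exp_pos 1).le
      have := Real.exp_one_lt_d9
      linarith
    have h4 : (4 : ℝ) ^ m ≤ h⁻¹ := by
      rw [le_inv_comm₀ (by positivity) h0, ← one_div, le_div_iff₀ (by positivity)]
      have : 0 < h * 4 ^ m := by positivity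
      nlinarith
    rw [hl, Real.le_log_iff_exp_le (by positivity)]
    exact h3.trans h4
  -- the number `i`
  obtain ⟨j, hj1, hj2⟩ := exists_nat_pow_near (x := 2 * l) (y := 2) (by linarith) (by norm_num)
  have hji : (j : ℝ) ≤ 1 + 3 / 2 * Real.log l := by
    have h3 : Real.log ((2 : ℝ) ^ j) ≤ Real.log (2 * l) := Real.log_le_log (by positivity) hj1
    rw [Real.log_pow, Real.log_mul (by norm_num) (by linarith)] at h3
    have h4 := Real.log_two_gt_d9
    have h5 : 0 ≤ Real.log l := Real.log_nonneg (by linarith)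
    have h6 := Real.log_two_lt_d9
    by_contra hcon
    push Not at hcon
    have h7 : (1 + 3 / 2 * Real.log l) * Real.log 2 < j * Real.log 2 := by
      apply mul_lt_mul_of_pos_right hcon
      linarith
    nlinarith
  set T := m + N with hT
  have hstep := seq_step h0 hhA ha0 haA ha hb0 hb h1 h2 hN
  have hiter := seq_iter (u := fun i => a (i * T)) (D := √A + 1326) (h := h) (l := 2 * l)
    (by positivity) h0 (by
      intro i
      have h3 := hstep (i * T)
      rw [show (i + 1) * T = i * T + (m + N) by rw [hT]; ring]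
      exact h3) (by
      simp only [zero_mul]
      have h3 : Real.exp (2 * l) = (h⁻¹) ^ 2 := by
        rw [show 2 * l = ((2 : ℕ) : ℝ) * l by norm_num, Real.exp_nat_mul, hl,
          Real.exp_log (by positivity)]
      rw [h3]
      have h4 : ((√A + 1326) * h) ^ 2 * h⁻¹ ^ 2 = (√A + 1326) ^ 2 := by
        field_simp
      rw [h4]
      have h5 : √A ^ 2 = A := Real.sq_sqrt hA
      have h6 := Real.sqrt_nonneg A
      have h7 := haA 0
      nlinarith) (j + 1)
  refine ⟨(j + 1) * T, ?_, ?_⟩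
  · push_cast
    have h3 : (T : ℝ) ≤ 4 * l := by
      rw [hT]
      push_cast
      linarith
    have h4 : (j : ℝ) + 1 ≤ 2 * (1 + Real.log l) := by
      have h5 : 0 ≤ Real.log l := Real.log_nonneg (by linarith)
      linarith
    calc ((j : ℝ) + 1) * T ≤ (2 * (1 + Real.log l)) * (4 * l) := by
          apply mul_le_mul h4 h3 (by positivity)
          have h5 : 0 ≤ Real.log l := Real.log_nonneg (by linarith)
          positivity
      _ = _ := by ring
  · refine hiter.trans ?_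
    have h3 : 2 * l / 2 ^ (j + 1) ≤ 1 := by
      rw [div_le_one (by positivity)]
      exact hj2.le
    have h4 : Real.exp (2 * l / 2 ^ (j + 1)) ≤ 3 := by
      refine (Real.exp_le_exp.mpr h3).trans ?_
      have := Real.exp_one_lt_d9
      linarith
    calc ((√A + 1326) * h) ^ 2 * Real.exp (2 * l / 2 ^ (j + 1))
        ≤ ((√A + 1326) * h) ^ 2 * 3 := by gcongr
      _ = 3 * (√A + 1326) ^ 2 * h ^ 2 := by ring

end Pool.Agent.TH136.Tip
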