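import Mathlib
import Pool.Agent.TH136.Tip.Fin
import Pool.Agent.TH136.Tip.Seq

set_option autoImplicit false
set_option linter.unusedSectionVars false

open MeasureTheory Set Filter Metric

namespace Pool.Agent.TH136.Tip

/-- The points whose `n`-th iterate is in the disc of radius `r`. -/
def SL (β : ℂ) (r : ℝ) (n : ℕ) : Set ℂ := {z | ‖(q β)^[n] z‖ ≤ r}

/-- The critical disc. -/
def DD (β : ℂ) : Set ℂ := {z | ‖z‖ ^ 2 ≤ 8 * ‖et β‖}

theorem measurable_SL (β : ℂ) (r : ℝ) (n : ℕ) : MeasurableSet (SL β r n) :=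
  measurableSet_le ((differentiable_iter β n).continuous.norm.measurable) measurable_const

theorem measurable_DD (β : ℂ) : MeasurableSet (DD β) :=
  measurableSet_le (by fun_prop) measurable_const

section

variable {β : ℂ} (hβ : ‖β - 2‖ ≤ 1 / 1000)

include hβ

theorem q_grow {r : ℝ} (hr : 4 ≤ r) {z : ℂ} (hz : ‖q β z‖ ≤ r) : ‖z‖ ≤ r := by
  by_contra hcon
  push Not at hcon
  have h1 : ‖z‖ ^ 2 ≤ ‖q β z‖ + ‖β - β ^ 2‖ := by
    rw [← norm_pow]
    calc ‖z ^ 2‖ = ‖q β z - (β - β ^ 2)‖ := by congr 1; unfold q; ring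
      _ ≤ _ := norm_sub_le _ _
  have h2 : ‖β - β ^ 2‖ ≤ 7 := by
    have h3 := norm_beta_le hβ
    have h4 := norm_nonneg β
    refine (norm_sub_le _ _).trans ?_
    rw [norm_pow]
    nlinarith
  nlinarith

theorem SL_anti {r : ℝ} (hr : 4 ≤ r) : Antitone (SL β r) := by
  apply antitone_nat_of_succ_le
  intro n z hz
  have hz' : ‖(q β)^[n + 1] z‖ ≤ r := hz
  rw [Function.iterate_succ_apply'] at hz'
  exact q_grow hβ hr hz'

theorem SL_zero (r : ℝ) : SL β r 0 = closedBall 0 r := by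
  ext z
  simp [SL]

theorem SL_sub {r : ℝ} (hr : 4 ≤ r) (n : ℕ) : SL β r n ⊆ closedBall 0 r := by
  rw [← SL_zero hβ r]
  exact SL_anti hβ hr (Nat.zero_le n)

theorem volume_le {r : ℝ} (hr : 4 ≤ r) (n : ℕ) :
    volume (SL β r n) ≤ ENNReal.ofReal (r ^ 2 + 9) * mu β (SL β r n) := by
  have hb := norm_beta_le hβ
  have hb2 : ‖β‖ ≤ 3 := by linarith
  rw [← setLIntegral_one]
  unfold mu
  rw [← lintegral_const_mul _ (measurable_rho β)]
  apply setLIntegral_mono' (measurable_SL β r n)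
  intro z hz
  have hz2 := SL_sub hβ hr n hz
  rw [mem_closedBall_zero_iff] at hz2
  have hR : R β z ≤ r ^ 2 + 9 := by
    unfold R
    refine (norm_sub_le _ _).trans ?_
    rw [norm_pow, norm_pow]
    have := norm_nonneg z
    have := norm_nonneg β
    nlinarith
  have h1 : ENNReal.ofReal (R β z) ≤ ENNReal.ofReal (r ^ 2 + 9) := ENNReal.ofReal_le_ofReal hR
  unfold rho
  calc (1 : ENNReal) = ENNReal.ofReal (r ^ 2 + 9) * (ENNReal.ofReal (r ^ 2 + 9))⁻¹ := by
        rw [ENNReal.mul_inv_cancel]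
        · exact (ENNReal.ofReal_pos.mpr (by positivity)).ne'
        · exact ENNReal.ofReal_ne_top
    _ ≤ ENNReal.ofReal (r ^ 2 + 9) * (ENNReal.ofReal (R β z))⁻¹ := by
        gcongr

theorem ab_out (h0 : 0 < ‖et β‖) {r : ℝ} (n : ℕ) :
    mu β (SL β r (n + 1)) ≤ ENNReal.ofReal (9 / 16) * mu β (SL β r n) +
      mu β (SL β r (n + 1) ∩ DD β) := by
  have hsub : SL β r (n + 1) ⊆ (SL β r (n + 1) ∩ (DD β)ᶜ) ∪ (SL β r (n + 1) ∩ DD β) := by
    intro z hz
    by_cases h : z ∈ DD β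
    · exact Or.inr ⟨hz, h⟩
    · exact Or.inl ⟨hz, h⟩
  refine (mu_mono β hsub).trans ((mu_union β _ _).trans ?_)
  gcongr
  have h1 := mu_out hβ h0 (A := SL β r (n + 1) ∩ (DD β)ᶜ) (S := SL β r n)
    ((measurable_SL β r _).inter (measurable_DD β).compl)
    (fun z hz => by
      have h2 : ¬ ‖z‖ ^ 2 ≤ 8 * ‖et β‖ := hz.2
      linarith)
    (fun z hz => by
      have h2 : ‖(q β)^[n + 1] z‖ ≤ r := hz.1
      rw [Function.iterate_succ_apply] at h2
      exact h2)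
  have h3 : ENNReal.ofReal (9 / 32) * (ENNReal.ofReal (32 / 9) * mu β (SL β r (n + 1) ∩ (DD β)ᶜ)) ≤
      ENNReal.ofReal (9 / 32) * (2 * mu β (SL β r n)) := by gcongr
  rw [← mul_assoc, ← mul_assoc, ← ENNReal.ofReal_mul (by norm_num)] at h3
  have h4 : ENNReal.ofReal (9 / 32 * (32 / 9)) = 1 := by norm_num
  have h5 : ENNReal.ofReal (9 / 32) * 2 = ENNReal.ofReal (9 / 16) := by
    rw [show (2 : ENNReal) = ENNReal.ofReal 2 by norm_num, ← ENNReal.ofReal_mul (by norm_num)]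
    norm_num
  rw [h4, h5, one_mul] at h3
  exact h3

theorem ab_pass (h0 : 0 < ‖et β‖) {r : ℝ} {m : ℕ}
    (hm : 16 * ‖et β‖ * 4 ^ m ≤ 1) (hm' : 1 ≤ 64 * ‖et β‖ * 4 ^ m) (n : ℕ) {M : ℝ} (hM : 0 < M)
    (hM2 : M * ‖et β‖ ^ 2 ≤ 1) :
    mu β (SL β r (n + m + 1) ∩ DD β) ≤ ENNReal.ofReal (Real.pi * (M * ‖et β‖ ^ 2)) +
      ENNReal.ofReal (576 / M) * mu β (SL β r n) := by
  set E : Set ℂ := {z : ℂ | M * ‖et β‖ ^ 2 ≤ ‖z‖ ^ 2} with hE
  have hEm : MeasurableSet E := measurableSet_le measurable_const (by fun_prop)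
  have hsub : SL β r (n + m + 1) ∩ DD β ⊆
      closedBall 0 (√(M * ‖et β‖ ^ 2)) ∪ (SL β r (n + m + 1) ∩ DD β ∩ E) := by
    intro z hz
    by_cases h : z ∈ E
    · exact Or.inr ⟨hz, h⟩
    · left
      rw [mem_closedBall_zero_iff]
      apply Real.le_sqrt_of_sq_le
      have h2 : ¬ M * ‖et β‖ ^ 2 ≤ ‖z‖ ^ 2 := h
      linarith
  refine (mu_mono β hsub).trans ((mu_union β _ _).trans ?_)
  apply add_le_add
  · refine (mu_small hβ (Real.sqrt_nonneg _) ?_).trans ?_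
    · rw [Real.sqrt_le_iff]
      exact ⟨zero_le_one, by rw [one_pow]; exact hM2⟩
    · rw [Real.sq_sqrt (by positivity)]
  · have h1 := mu_pass hβ h0 (A := SL β r (n + m + 1) ∩ DD β ∩ E) (S := SL β r n)
      (((measurable_SL β r _).inter (measurable_DD β)).inter hEm)
      (fun z hz => hz.1.2) hM (fun z hz => hz.2) hm hm'
      (fun z hz => by
        have h2 : ‖(q β)^[n + m + 1] z‖ ≤ r := hz.1.1
        rw [add_assoc, Function.iterate_add_apply] at h2
        exact h2)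
    have h3 : ENNReal.ofReal (288 / M) *
        (ENNReal.ofReal (M / 288) * mu β (SL β r (n + m + 1) ∩ DD β ∩ E)) ≤
        ENNReal.ofReal (288 / M) * (2 * mu β (SL β r n)) := by gcongr
    rw [← mul_assoc, ← mul_assoc, ← ENNReal.ofReal_mul (by positivity)] at h3
    have h4 : ENNReal.ofReal (288 / M * (M / 288)) = 1 := by
      rw [show 288 / M * (M / 288) = 1 by field_simp]
      exact ENNReal.ofReal_one
    have h5 : ENNReal.ofReal (288 / M) * 2 = ENNReal.ofReal (576 / M) := by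
      rw [show (2 : ENNReal) = ENNReal.ofReal 2 by norm_num, ← ENNReal.ofReal_mul (by positivity)]
      congr 1
      ring
    rw [h4, h5, one_mul] at h3
    exact h3

end

/-- The area of the level sets. -/
theorem level_area {r : ℝ} (hr : 4 ≤ r) : ∃ C h₁ : ℝ, 0 ≤ C ∧ 0 < h₁ ∧ ∀ β : ℂ,
    ‖β - 2‖ ≤ 1 / 1000 → 0 < ‖et β‖ → ‖et β‖ ≤ h₁ →
    ∃ n : ℕ, (n : ℝ) ≤ 8 * Real.log ‖et β‖⁻¹ * (1 + Real.log (Real.log ‖et β‖⁻¹)) ∧
      volume (SL β r n) ≤ ENNReal.ofReal (C * ‖et β‖ ^ 2) := by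
  obtain ⟨A, hA0, hA⟩ := mu_fin r
  refine ⟨(r ^ 2 + 9) * (3 * (√A + 1326) ^ 2), 1 / (1 + √A), by positivity, by positivity, ?_⟩
  intro β hβ h0 hh1
  set h := ‖et β‖ with hh
  have hh400 : h ≤ 1 / 400 := et_le hβ
  obtain ⟨m, hm1, hm2⟩ := exists_nat_pow_near (x := 1 / (16 * h)) (y := 4) (by
    rw [le_div_iff₀ (by positivity)]
    linarith) (by norm_num)
  have hm : 16 * h * 4 ^ m ≤ 1 := by
    rw [le_div_iff₀ (by positivity)] at hm1
    linarith
  have hm' : 1 ≤ 64 * h * 4 ^ m := by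
    rw [div_lt_iff₀ (by positivity), pow_succ] at hm2
    linarith
  have hfin : ∀ n, mu β (SL β r n) ≤ ENNReal.ofReal A := fun n =>
    (mu_mono β (SL_sub hβ hr n)).trans (hA β hβ)
  have hne : ∀ n, mu β (SL β r n) ≠ ⊤ := fun n => ((hfin n).trans_lt ENNReal.ofReal_lt_top).ne
  have hne' : ∀ n, mu β (SL β r n ∩ DD β) ≠ ⊤ := fun n =>
    ((mu_mono β inter_subset_left).trans_lt ((hfin n).trans_lt ENNReal.ofReal_lt_top)).ne
  obtain ⟨n, hn1, hn2⟩ := seq_main (a := fun n => (mu β (SL β r n)).toReal)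
    (b := fun n => (mu β (SL β r n ∩ DD β)).toReal) (A := A) (h := h) (m := m) hA0 h0
    (by
      have h3 : h * (1 + √A) ≤ 1 := by
        rw [le_div_iff₀ (by positivity)] at hh1
        exact hh1
      nlinarith [Real.sqrt_nonneg A]) hh400
    (fun n => ENNReal.toReal_nonneg)
    (fun n => by
      have := ENNReal.toReal_mono ENNReal.ofReal_ne_top (hfin n)
      rwa [ENNReal.toReal_ofReal hA0] at this)
    (fun i j hij => ENNReal.toReal_mono (hne i) (mu_mono β (SL_anti hβ hr hij)))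
    (fun n => ENNReal.toReal_nonneg)
    (fun i j hij => ENNReal.toReal_mono (hne' i)
      (mu_mono β (inter_subset_inter_left _ (SL_anti hβ hr hij))))
    (fun n => by
      have h3 := ENNReal.toReal_mono (ENNReal.add_ne_top.mpr
        ⟨ENNReal.mul_ne_top ENNReal.ofReal_ne_top (hne n), hne' (n + 1)⟩) (ab_out hβ h0 (r := r) n)
      rw [ENNReal.toReal_add (ENNReal.mul_ne_top ENNReal.ofReal_ne_top (hne n)) (hne' (n + 1)),
        ENNReal.toReal_mul, ENNReal.toReal_ofReal (by norm_num)] at h3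
      exact h3)
    (fun n M hM hM2 => by
      have h3 := ENNReal.toReal_mono (ENNReal.add_ne_top.mpr
        ⟨ENNReal.ofReal_ne_top, ENNReal.mul_ne_top ENNReal.ofReal_ne_top (hne n)⟩)
        (ab_pass hβ h0 (r := r) hm hm' n hM hM2)
      rw [ENNReal.toReal_add ENNReal.ofReal_ne_top
        (ENNReal.mul_ne_top ENNReal.ofReal_ne_top (hne n)),
        ENNReal.toReal_mul, ENNReal.toReal_ofReal (by positivity),
        ENNReal.toReal_ofReal (by positivity)] at h3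
      exact h3)
    hm
  refine ⟨n, hn1, ?_⟩
  refine (volume_le hβ hr n).trans ?_
  have h3 : mu β (SL β r n) ≤ ENNReal.ofReal (3 * (√A + 1326) ^ 2 * h ^ 2) := by
    rw [← ENNReal.ofReal_toReal (hne n)]
    exact ENNReal.ofReal_le_ofReal hn2
  calc ENNReal.ofReal (r ^ 2 + 9) * mu β (SL β r n)
      ≤ ENNReal.ofReal (r ^ 2 + 9) * ENNReal.ofReal (3 * (√A + 1326) ^ 2 * h ^ 2) := by gcongr
    _ = ENNReal.ofReal ((r ^ 2 + 9) * (3 * (√A + 1326) ^ 2) * h ^ 2) := by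
        rw [← ENNReal.ofReal_mul (by positivity)]
        congr 1
        ring

end Pool.Agent.TH136.Tip
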