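import Mathlib
import Pool.Prelude.Def_F_c31e40fa
import Pool.Agent.H548R3.MB.Eff2
import Pool.Agent.H713R2.AR.T1
import Pool.Agent.TH136.Tip.Level

set_option autoImplicit false

open Set Filter Metric MeasureTheory

namespace Pool.Agent.TH136.Tip

open Pool.Agent.H713R2 Pool.Agent.H712R2 Pool.Agent.H713R2.AR Pool.Agent.H548R3.MB

/-- The filled Julia set of `z ^ 2 + c`. -/
def KJ (c : ℂ) : Set ℂ :=
  {z | ¬ Tendsto (fun n => (fun z : ℂ => z ^ 2 + c)^[n] z) atTop (Bornology.cobounded ℂ)}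

theorem exists_beta (c : ℂ) : ∃ β : ℂ, β - β ^ 2 = c ∧ ‖β - 2‖ * ‖β + 1‖ = ‖c + 2‖ ∧
    ‖β - 2‖ ≤ ‖β + 1‖ := by
  have key : ∀ β : ℂ, β - β ^ 2 = c → ‖β - 2‖ * ‖β + 1‖ = ‖c + 2‖ := by
    intro β h
    rw [← norm_mul, ← norm_neg, ← h]
    congr 1
    ring
  obtain ⟨s, hs⟩ : ∃ s : ℂ, s ^ 2 = 1 - 4 * c := IsAlgClosed.exists_pow_nat_eq _ (by norm_num)
  rcases le_total ‖(1 + s) / 2 - 2‖ ‖(1 + s) / 2 + 1‖ with h | h
  · have h1 : (1 + s) / 2 - ((1 + s) / 2) ^ 2 = c := by linear_combination -hs / 4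
    exact ⟨(1 + s) / 2, h1, key _ h1, h⟩
  · have h1 : (1 - s) / 2 - ((1 - s) / 2) ^ 2 = c := by linear_combination -hs / 4
    refine ⟨(1 - s) / 2, h1, key _ h1, ?_⟩
    rw [show (1 - s) / 2 - 2 = -((1 + s) / 2 + 1) by ring,
      show (1 - s) / 2 + 1 = -((1 + s) / 2 - 2) by ring, norm_neg, norm_neg]
    exact h

theorem beta_bounds {c β : ℂ} (h1 : ‖β - 2‖ * ‖β + 1‖ = ‖c + 2‖) (h2 : ‖β - 2‖ ≤ ‖β + 1‖)
    (hc : ‖c + 2‖ ≤ 1 / 1000) : ‖β - 2‖ ≤ 1 / 1000 ∧ ‖c + 2‖ / 4 ≤ ‖β - 2‖ ∧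
      ‖β - 2‖ ≤ ‖c + 2‖ / 2 := by
  set x := ‖β - 2‖ with hx
  set y := ‖β + 1‖ with hy
  set e := ‖c + 2‖ with he
  have hx0 : 0 ≤ x := norm_nonneg _
  have h3 : 3 ≤ x + y := by
    calc (3 : ℝ) = ‖(β + 1) - (β - 2)‖ := by
          rw [show (β + 1) - (β - 2) = 3 by ring]
          simp
      _ ≤ ‖β + 1‖ + ‖β - 2‖ := norm_sub_le _ _
      _ = x + y := by rw [hx, hy]; ring
  have h4 : y ≤ 3 + x := by
    calc y = ‖(3 : ℂ) + (β - 2)‖ := by rw [hy]; congr 1; ring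
      _ ≤ ‖(3 : ℂ)‖ + ‖β - 2‖ := norm_add_le _ _
      _ = 3 + x := by rw [hx]; simp
  have h5 : x ≤ 1 := by
    by_contra hcon
    push Not at hcon
    nlinarith
  have h6 : x ≤ e / 2 := by nlinarith
  refine ⟨by linarith, by nlinarith, h6⟩

/-- The area of level sets near the tip. -/
theorem level_area_c {r : ℝ} (hr : 4 ≤ r) : ∃ C ε₀ : ℝ, 0 ≤ C ∧ 0 < ε₀ ∧ ε₀ ≤ 1 / 1000 ∧
    ∀ c : ℂ, c ≠ -2 → ‖c + 2‖ ≤ ε₀ →
    ∃ n : ℕ, 2 ≤ n ∧ (n : ℝ) ≤ 34 * ((1 + |Real.log ‖c + 2‖|) *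
        (1 + Real.log (1 + |Real.log ‖c + 2‖|))) ∧
      volume {z | ‖(fun z : ℂ => z ^ 2 + c)^[n] z‖ ≤ r} ≤ ENNReal.ofReal (C * ‖c + 2‖ ^ 2) ∧
      KJ c ⊆ {z | ‖(fun z : ℂ => z ^ 2 + c)^[n] z‖ ≤ r} := by
  obtain ⟨C, h₁, hC, hh₁, H⟩ := level_area hr
  refine ⟨4 * C, min (1 / 1000) (h₁ / 2), by positivity, by positivity, min_le_left _ _, ?_⟩
  intro c hc hce
  have hce1 : ‖c + 2‖ ≤ 1 / 1000 := hce.trans (min_le_left _ _)
  have hce2 : ‖c + 2‖ ≤ h₁ / 2 := hce.trans (min_le_right _ _)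
  obtain ⟨β, hβc, hβ1, hβ2⟩ := exists_beta c
  obtain ⟨hβ3, hβ4, hβ5⟩ := beta_bounds hβ1 hβ2 hce1
  have he0 : 0 < ‖c + 2‖ := by
    rw [norm_pos_iff]
    intro h
    exact hc (eq_neg_of_add_eq_zero_left h)
  have hb1 := norm_beta_ge hβ3
  have hb2 := norm_beta_le hβ3
  have het := norm_et (β := β) hβ3
  set e := ‖c + 2‖ with he
  have het1 : ‖et β‖ ≤ 2 * e := by
    rw [het]
    nlinarith
  have het2 : e / 4 ≤ ‖et β‖ := by
    rw [het]
    nlinarith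
  have het0 : 0 < ‖et β‖ := by linarith
  obtain ⟨n, hn1, hn2⟩ := H β hβ3 het0 (by linarith)
  have hf : (fun z : ℂ => z ^ 2 + c) = q β := by
    unfold q
    rw [hβc]
  refine ⟨n + 2, by omega, ?_, ?_, ?_⟩
  · -- the bound of the number of steps
    set l := Real.log ‖et β‖⁻¹ with hl
    set L := 1 + |Real.log e| with hL
    have hL1 : 1 ≤ L := by rw [hL]; linarith [abs_nonneg (Real.log e)]
    have hlL : l ≤ 2 * L := by
      have h3 : l ≤ Real.log (4 / e) := by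
        apply Real.log_le_log (by positivity)
        rw [inv_le_comm₀ het0 (by positivity), inv_div]
        exact het2
      rw [Real.log_div (by norm_num) he0.ne'] at h3
      have h4 : Real.log 4 ≤ 2 := by
        rw [show (4 : ℝ) = 2 ^ 2 by norm_num, Real.log_pow]
        have := Real.log_two_lt_d9
        push_cast
        linarith
      have h5 := neg_abs_le (Real.log e)
      rw [hL]
      linarith [abs_nonneg (Real.log e)]
    have hl1 : 1 ≤ l := by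
      rw [hl, Real.le_log_iff_exp_le (by positivity)]
      have h3 := et_le hβ3
      have h4 : (400 : ℝ) ≤ ‖et β‖⁻¹ := by
        rw [le_inv_comm₀ (by norm_num) het0]
        linarith
      have := Real.exp_one_lt_d9
      linarith
    have h3 : Real.log l ≤ 1 + Real.log L := by
      have h4 : Real.log l ≤ Real.log (2 * L) := Real.log_le_log (by linarith) hlL
      rw [Real.log_mul (by norm_num) (by linarith)] at h4
      have := Real.log_two_lt_d9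
      linarith
    have h4 : 0 ≤ Real.log L := Real.log_nonneg hL1
    have h5 : 0 ≤ Real.log l := Real.log_nonneg hl1
    push_cast
    have h6 : (n : ℝ) ≤ 8 * (2 * L) * (2 * (1 + Real.log L)) := by
      refine hn1.trans ?_
      apply mul_le_mul (by linarith) (by linarith) (by linarith) (by linarith)
    nlinarith
  · rw [hf]
    have h3 : {z | ‖(q β)^[n + 2] z‖ ≤ r} ⊆ SL β r n := SL_anti hβ3 hr (by omega)
    refine (measure_mono h3).trans (hn2.trans ?_)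
    apply ENNReal.ofReal_le_ofReal
    have h4 : ‖et β‖ ^ 2 ≤ (2 * e) ^ 2 := pow_le_pow_left₀ het0.le het1 2
    calc C * ‖et β‖ ^ 2 ≤ C * (2 * e) ^ 2 := by gcongr
      _ = 4 * C * e ^ 2 := by ring
  · rw [hf]
    intro z hz
    by_contra hcon
    have hcon' : r < ‖(q β)^[n + 2] z‖ := not_le.mp hcon
    apply hz
    rw [hf]
    set w := (q β)^[n + 2] z with hw
    have h3 : ∀ j : ℕ, 4 * 2 ^ j ≤ ‖(q β)^[j] w‖ := by
      intro j
      induction j with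
      | zero => simp; linarith
      | succ j ih =>
        rw [Function.iterate_succ_apply']
        set v := (q β)^[j] w with hv
        have h4 : ‖v‖ ^ 2 ≤ ‖q β v‖ + ‖β - β ^ 2‖ := by
          rw [← norm_pow]
          calc ‖v ^ 2‖ = ‖q β v - (β - β ^ 2)‖ := by congr 1; unfold q; ring
            _ ≤ _ := norm_sub_le _ _
        have h5 : ‖β - β ^ 2‖ ≤ 7 := by
          refine (norm_sub_le _ _).trans ?_
          rw [norm_pow]
          nlinarith [norm_nonneg β]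
        have h6 : (1 : ℝ) ≤ 2 ^ j := one_le_pow₀ (by norm_num)
        rw [pow_succ]
        nlinarith
    rw [← tendsto_norm_atTop_iff_cobounded]
    rw [← tendsto_add_atTop_iff_nat (n + 2)]
    have h4 : Tendsto (fun j : ℕ => 4 * (2 : ℝ) ^ j) atTop atTop :=
      (tendsto_pow_atTop_atTop_of_one_lt (by norm_num)).const_mul_atTop (by norm_num)
    apply tendsto_atTop_mono _ h4
    intro j
    rw [Function.iterate_add_apply]
    exact h3 j

theorem KJ_sub_ball {c : ℂ} (hc : ‖c‖ ≤ 2) : KJ c ⊆ closedBall 0 4 := by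
  intro z hz
  by_contra hcon
  rw [mem_closedBall_zero_iff, not_le] at hcon
  apply hz
  rw [← tendsto_norm_atTop_iff_cobounded]
  have h3 : ∀ j : ℕ, 4 * 2 ^ j ≤ ‖(fun z : ℂ => z ^ 2 + c)^[j] z‖ := by
    intro j
    induction j with
    | zero => simp; linarith
    | succ j ih =>
      rw [Function.iterate_succ_apply']
      set v := (fun z : ℂ => z ^ 2 + c)^[j] z with hv
      have h4 : ‖v‖ ^ 2 ≤ ‖v ^ 2 + c‖ + ‖c‖ := by
        rw [← norm_pow]
        calc ‖v ^ 2‖ = ‖(v ^ 2 + c) - c‖ := by congr 1; ring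
          _ ≤ _ := norm_sub_le _ _
      have h6 : (1 : ℝ) ≤ 2 ^ j := one_le_pow₀ (by norm_num)
      rw [pow_succ]
      nlinarith
  have h4 : Tendsto (fun j : ℕ => 4 * (2 : ℝ) ^ j) atTop atTop :=
    (tendsto_pow_atTop_atTop_of_one_lt (by norm_num)).const_mul_atTop (by norm_num)
  exact tendsto_atTop_mono h3 h4

theorem norm_le_two {c : ℂ} (hc : c ∈ N62a1eb23.multibrotSet 2) : ‖c‖ ≤ 2 := by
  have hcb := (mem_multibrot_iff le_rfl c).mp hc
  have := hcb 1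
  rwa [P_one le_rfl] at this

theorem sqrt_moments (S : Set ℂ) :
    √((∫ z in S, ‖z‖ ^ (2 * 0)) * ∫ z in S, ‖z‖ ^ (2 * 0)) = (volume S).toReal := by
  have h2 : ∫ z in S, ‖z‖ ^ (2 * 0) = (volume S).toReal := by
    simp [Measure.real]
  rw [h2]
  exact Real.sqrt_mul_self ENNReal.toReal_nonneg

/-- The three upper bounds. -/
theorem upper : ∃ C : ℝ, 0 < C ∧ ∀ c ∈ N62a1eb23.multibrotSet 2, c ≠ -2 →
    volume (KJ c) ≤ ENNReal.ofReal (C * ‖c + 2‖ ^ 2) ∧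
    (∃ c' : ℂ, ‖c' - c‖ ≤ C * ‖c + 2‖ ^ 2 ∧ ∃ p : ℕ, 1 ≤ p ∧
      (fun z : ℂ => z ^ 2 + c')^[p] 0 = 0 ∧
      N62a1eb23.IsAttractingCycle (fun z : ℂ => z ^ 2 + c') p 0 ∧
      (p : ℝ) ≤ C * ((1 + |Real.log ‖c + 2‖|) * (1 + Real.log (1 + |Real.log ‖c + 2‖|)))) ∧
    (∀ V : Set ℂ, IsOpen V → IsPreconnected V →
      ((∀ c₁ ∈ V, ¬ ∃ m z, N62a1eb23.IsAttractingCycle (fun z : ℂ => z ^ 2 + c₁) m z) ∨
        V ⊆ N62a1eb23.multibrotSet 2) →
      ∀ γ : ℂ → ℂ, DifferentiableOn ℂ γ (ball 0 1) → (∀ t ∈ ball (0 : ℂ) 1, γ t ∈ V) → γ 0 = c →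
        ‖deriv γ 0‖ ≤ C * ‖c + 2‖ ^ 2) := by
  set r : ℝ := 4 * Real.exp (KC 2 1) with hr
  have hKC : 0 ≤ KC 2 1 := KC_nonneg 2 1
  have hr4 : 4 ≤ r := by
    have := Real.one_le_exp hKC
    rw [hr]
    linarith
  obtain ⟨C, ε₀, hC, hε₀, hε₀1, H⟩ := level_area_c hr4
  have hpi := Real.pi_gt_three
  set V₀ : ℝ := (volume (closedBall (0 : ℂ) 4)).toReal with hV₀
  have hV₀0 : 0 ≤ V₀ := ENNReal.toReal_nonneg
  have hV₀fin : volume (closedBall (0 : ℂ) 4) ≠ ⊤ := (isCompact_closedBall _ _).measure_lt_top.ne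
  -- the area estimate
  set C₁ : ℝ := max (8 * C) (max (34 : ℝ) ((V₀ + 2) / ε₀ ^ 2)) with hC₁
  have hC₁a : 8 * C ≤ C₁ := le_max_left _ _
  have hC₁b : 34 ≤ C₁ := (le_max_left _ _).trans (le_max_right _ _)
  have hC₁c : (V₀ + 2) / ε₀ ^ 2 ≤ C₁ := (le_max_right _ _).trans (le_max_right _ _)
  have hC₁0 : 0 < C₁ := by linarith
  have hfar : ∀ c : ℂ, ε₀ < ‖c + 2‖ → V₀ + 2 ≤ C₁ * ‖c + 2‖ ^ 2 := by
    intro c hce
    rw [div_le_iff₀ (by positivity)] at hC₁c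
    have h2 : ε₀ ^ 2 ≤ ‖c + 2‖ ^ 2 := pow_le_pow_left₀ hε₀.le hce.le 2
    nlinarith
  have harea : ∀ c ∈ N62a1eb23.multibrotSet 2, c ≠ -2 →
      volume (KJ c) ≤ ENNReal.ofReal (C₁ * ‖c + 2‖ ^ 2) := by
    intro c hc hc2
    rcases le_or_gt ‖c + 2‖ ε₀ with hce | hce
    · obtain ⟨n, _, _, hn3, hn4⟩ := H c hc2 hce
      refine (measure_mono hn4).trans (hn3.trans ?_)
      apply ENNReal.ofReal_le_ofReal
      have : 0 ≤ ‖c + 2‖ ^ 2 := by positivity
      nlinarith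
    · refine (measure_mono (KJ_sub_ball (norm_le_two hc))).trans ?_
      rw [← ENNReal.ofReal_toReal hV₀fin]
      apply ENNReal.ofReal_le_ofReal
      have := hfar c hce
      linarith
  refine ⟨C₁, hC₁0, ?_⟩
  intro c hc hc2
  have hL1 : 1 ≤ 1 + |Real.log ‖c + 2‖| := by linarith [abs_nonneg (Real.log ‖c + 2‖)]
  have hL2 : 0 ≤ Real.log (1 + |Real.log ‖c + 2‖|) := Real.log_nonneg hL1
  have hLL : 1 ≤ (1 + |Real.log ‖c + 2‖|) * (1 + Real.log (1 + |Real.log ‖c + 2‖|)) := by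
    nlinarith
  refine ⟨harea c hc hc2, ?_, ?_⟩
  · rcases le_or_gt ‖c + 2‖ ε₀ with hce | hce
    · obtain ⟨n, hn1, hn2, hn3, _⟩ := H c hc2 hce
      obtain ⟨J, rfl⟩ : ∃ J, n = J + 2 := ⟨n - 2, by omega⟩
      obtain ⟨c', ⟨p, hp1, hp2, hp3⟩, h⟩ := nearest (d := 2) le_rfl hc J
      refine ⟨c', ?_, p, hp1, hp3, att_of_centre (d := 2) le_rfl hp1 hp3, ?_⟩
      · have h1 := h 1 0 0 rfl
        rw [sqrt_moments] at h1
        have hsub : GLev 2 c (KC 2 1 / ((2 : ℕ) : ℝ) ^ (J + 2)) ⊆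
            {z | ‖(fun z : ℂ => z ^ 2 + c)^[J + 2] z‖ ≤ r} := by
          intro z hz
          have h2 := norm_iter_le (d := 2) le_rfl (A := 2) (by norm_num) (norm_le_two hc) z (J + 2)
          have hz' : green 2 c z ≤ KC 2 1 / ((2 : ℕ) : ℝ) ^ (J + 2) := hz
          refine h2.trans ?_
          rw [hr]
          have h3 : ((2 : ℕ) : ℝ) ^ (J + 2) * green 2 c z ≤ KC 2 1 := by
            rw [le_div_iff₀ (by positivity)] at hz'
            linarith
          have := Real.exp_le_exp.mpr h3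
          linarith
        have h2 : (volume (GLev 2 c (KC 2 1 / ((2 : ℕ) : ℝ) ^ (J + 2)))).toReal ≤
            C * ‖c + 2‖ ^ 2 := by
          have h3 := ENNReal.toReal_mono ENNReal.ofReal_ne_top ((measure_mono hsub).trans hn3)
          rwa [ENNReal.toReal_ofReal (by positivity)] at h3
        have h3 : ((2 : ℕ) : ℝ) / Real.pi ≤ 1 := by
          rw [div_le_one (by linarith)]
          push_cast
          linarith
        have h4 : (1 / 4 : ℝ) * ‖c' - c‖ ≤ C * ‖c + 2‖ ^ 2 := by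
          have h5 : (1 - (3 / 4 : ℝ) ^ 1) = 1 / 4 := by norm_num
          rw [h5] at h1
          refine h1.trans ?_
          calc ((2 : ℕ) : ℝ) / Real.pi * (volume (GLev 2 c (KC 2 1 / ((2 : ℕ) : ℝ) ^ (J + 2)))).toReal
              ≤ 1 * (C * ‖c + 2‖ ^ 2) :=
                mul_le_mul h3 h2 ENNReal.toReal_nonneg (by norm_num)
            _ = _ := one_mul _
        have h5 : 0 ≤ ‖c + 2‖ ^ 2 := by positivity
        nlinarith
      · have h1 : (p : ℝ) ≤ ((J + 2 : ℕ) : ℝ) := by exact_mod_cast hp2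
        refine h1.trans (hn2.trans ?_)
        nlinarith
    · refine ⟨0, ?_, 1, le_rfl, by simp, ?_, ?_⟩
      · rw [zero_sub, norm_neg]
        have := hfar c hce
        have := norm_le_two hc
        linarith
      · exact att_of_centre (d := 2) le_rfl le_rfl (by simp)
      · push_cast
        nlinarith
  · intro V hV hVc hno γ hγ hγV hγc
    have h1 := main_T1 (d := 2) (a := 0) (b := 0) rfl hV hVc hγ hγV (by rw [hγc]; exact hc) hno
    rw [sqrt_moments, hγc] at h1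
    have h2 : (volume (KK 2 c)).toReal ≤ C₁ * ‖c + 2‖ ^ 2 := by
      have h3 := ENNReal.toReal_mono ENNReal.ofReal_ne_top (harea c hc hc2)
      rwa [ENNReal.toReal_ofReal (by positivity)] at h3
    have h3 : ((2 : ℕ) : ℝ) / Real.pi ≤ 1 := by
      rw [div_le_one (by linarith)]
      push_cast
      linarith
    refine h1.trans ?_
    calc ((2 : ℕ) : ℝ) / Real.pi * (volume (KK 2 c)).toReal
        ≤ 1 * (C₁ * ‖c + 2‖ ^ 2) := mul_le_mul h3 h2 ENNReal.toReal_nonneg (by norm_num)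
      _ = _ := one_mul _

end Pool.Agent.TH136.Tip
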