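import Mathlib

set_option autoImplicit false

open Set Filter Metric

namespace Pool.Agent.TH136.Tip

/-- The critical orbit of `x ^ 2 - 2 + t`. -/
def g (t : ℝ) : ℕ → ℝ
  | 0 => 0
  | n + 1 => g t n ^ 2 + (-2 + t)

theorem g_succ (t : ℝ) (n : ℕ) : g t (n + 1) = g t n ^ 2 + (-2 + t) := rfl

theorem g_zero (n : ℕ) : g 0 (n + 2) = 2 := by
  induction n with
  | zero => norm_num [g]
  | succ n ih =>
    rw [g_succ, ih]
    norm_num

theorem continuous_g (n : ℕ) : Continuous (fun t => g t n) := by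
  induction n with
  | zero => exact continuous_const
  | succ n ih =>
    simp only [g_succ]
    fun_prop

theorem phi_step {x t : ℝ} (hx : 0 ≤ x) (hx2 : x ≤ 2) (ht : 0 ≤ t) :
    4 * (6 * x / (6 - x)) - 9 * t ≤ 6 * (4 * x - x ^ 2 - t) / (6 - (4 * x - x ^ 2 - t)) := by
  set X := 4 * x - x ^ 2 with hX
  have hX4 : X ≤ 4 := by nlinarith [sq_nonneg (x - 2)]
  have h1 : 4 * (6 * x / (6 - x)) ≤ 6 * X / (6 - X) := by
    rw [mul_div_assoc', div_le_div_iff₀ (by linarith) (by linarith)]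
    have h3 : 0 ≤ x * (x * (2 - x)) := mul_nonneg hx (mul_nonneg hx (by linarith))
    rw [hX]
    nlinarith
  have h2 : 6 * X / (6 - X) - 9 * t ≤ 6 * (X - t) / (6 - (X - t)) := by
    have h5 : 0 < 6 - X := by linarith
    have h6 : 0 < 6 - (X - t) := by linarith
    have h7 : 6 * X / (6 - X) - 6 * (X - t) / (6 - (X - t)) = 36 * t / ((6 - X) * (6 - (X - t))) := by
      field_simp
      ring
    have h8 : 36 * t / ((6 - X) * (6 - (X - t))) ≤ 9 * t := by
      rw [div_le_iff₀ (by positivity)]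
      have h9 : 4 ≤ (6 - X) * (6 - (X - t)) := by nlinarith
      nlinarith
    linarith
  linarith

/-- The critical orbit becomes negative. -/
theorem exists_neg {t : ℝ} (ht : 0 < t) (ht1 : t ≤ 1 / 20) {n : ℕ} (hn : 28 ≤ 4 ^ n * t) :
    ∃ j, 2 ≤ j ∧ j ≤ n ∧ g t j ≤ 0 := by
  by_contra hcon
  push Not at hcon
  have h3n : 3 ≤ n := by
    by_contra h
    push Not at h
    have h1 : (4 : ℝ) ^ n ≤ 4 ^ 2 := pow_le_pow_right₀ (by norm_num) (by omega)
    nlinarith
  have h2 : g t 2 = 2 - (3 * t - t ^ 2) := by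
    simp only [g]
    ring
  have key : ∀ j, 3 ≤ j → j ≤ n → 10 * t ≤ 2 - g t j ∧
      3 * t + 7 / 64 * 4 ^ j * t ≤ 6 * (2 - g t j) / (6 - (2 - g t j)) := by
    intro j hj3
    induction j, hj3 using Nat.le_induction with
    | base =>
      intro _
      have h3 : g t 3 = 2 - (11 * t - 4 * t ^ 2 - (3 * t - t ^ 2) ^ 2) := by
        rw [g_succ, h2]
        ring
      have h4 : 10 * t ≤ 2 - g t 3 := by
        rw [h3]
        nlinarith [mul_pos ht ht, mul_pos (mul_pos ht ht) ht, mul_pos (mul_pos ht ht) (mul_pos ht ht)]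
      refine ⟨h4, ?_⟩
      have h5 := hcon 3 (by norm_num) h3n
      rw [le_div_iff₀ (by linarith)]
      nlinarith
    | succ j hj ih =>
      intro hjn
      obtain ⟨h4, h5⟩ := ih (by omega)
      have h6 := hcon j (by omega) (by omega)
      set x := 2 - g t j with hx
      have hg : g t j = 2 - x := by rw [hx]; ring
      have h7 : 2 - g t (j + 1) = 4 * x - x ^ 2 - t := by
        rw [g_succ, hg]
        ring
      rw [h7]
      have h8 : 10 * t ≤ 4 * x - x ^ 2 - t := by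
        have h9 : x ≤ 2 := by linarith
        nlinarith
      refine ⟨h8, ?_⟩
      have h9 := phi_step (x := x) (t := t) (by linarith) (by linarith) ht.le
      refine le_trans ?_ h9
      rw [pow_succ]
      linarith
  obtain ⟨h4, h5⟩ := key n h3n le_rfl
  have h6 := hcon n (by omega) le_rfl
  have h7 : 6 * (2 - g t n) / (6 - (2 - g t n)) ≤ 3 := by
    rw [div_le_iff₀ (by linarith)]
    linarith
  nlinarith

/-- Real centres near the tip. -/
theorem exists_centre {δ : ℝ} (hδ : 0 < δ) : ∃ t : ℝ, 0 < t ∧ t < δ ∧ t ≤ 1 / 20 ∧ ∃ k : ℕ, 2 ≤ k ∧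
    g t k = 0 ∧ (∀ i, 2 ≤ i → i ≤ k → 0 ≤ g t i) ∧ 4 ^ k * t ≤ 28 := by
  obtain ⟨n, hn⟩ : ∃ n : ℕ, 28 * (1 / 4 : ℝ) ^ n < min (δ / 2) (1 / 20) := by
    obtain ⟨n, hn⟩ := exists_pow_lt_of_lt_one (show 0 < min (δ / 2) (1 / 20) / 28 by positivity)
      (show (1 / 4 : ℝ) < 1 by norm_num)
    refine ⟨n, ?_⟩
    rw [lt_div_iff₀ (by norm_num)] at hn
    linarith
  set τ : ℝ := 28 * (1 / 4 : ℝ) ^ n with hτ
  have hτ0 : 0 < τ := by positivity
  have hτ1 : τ < δ / 2 := hn.trans_le (min_le_left _ _)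
  have hτ2 : τ < 1 / 20 := hn.trans_le (min_le_right _ _)
  have hτ4 : 4 ^ n * τ = 28 := by
    rw [hτ, mul_left_comm, ← mul_pow]
    norm_num
  set Z : Set ℝ := Icc 0 τ ∩ ⋃ j ∈ Finset.Icc 2 n, {t : ℝ | g t j ≤ 0} with hZ
  have hZc : IsCompact Z := by
    apply isCompact_Icc.inter_right
    exact isClosed_biUnion_finset (fun j _ => isClosed_le (continuous_g j) continuous_const)
  have hZne : Z.Nonempty := by
    refine ⟨τ, ⟨hτ0.le, le_rfl⟩, ?_⟩
    obtain ⟨j, hj1, hj2, hj3⟩ := exists_neg hτ0 hτ2.le (n := n) hτ4.ge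
    simp only [mem_iUnion, Finset.mem_Icc, exists_prop]
    exact ⟨j, ⟨hj1, hj2⟩, hj3⟩
  obtain ⟨t, htZ, htmin⟩ := hZc.exists_isMinOn hZne continuousOn_id
  obtain ⟨⟨ht0, htτ⟩, htj⟩ := htZ
  simp only [mem_iUnion, Finset.mem_Icc, exists_prop] at htj
  obtain ⟨k, ⟨hk1, hk2⟩, hk3⟩ := htj
  have hk3' : g t k ≤ 0 := hk3
  have htpos : 0 < t := by
    rcases ht0.eq_or_lt with h | h
    · exfalso
      obtain ⟨i, rfl⟩ : ∃ i, k = i + 2 := ⟨k - 2, by omega⟩
      rw [← h, g_zero] at hk3'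
      norm_num at hk3'
    · exact h
  have hpos : ∀ i, 2 ≤ i → i ≤ n → 0 ≤ g t i := by
    intro i hi1 hi2
    have h1 : ∀ s ∈ Ioo 0 t, 0 < g s i := by
      intro s hs
      by_contra hcon
      push Not at hcon
      have h2 : s ∈ Z := by
        refine ⟨⟨hs.1.le, hs.2.le.trans htτ⟩, ?_⟩
        simp only [mem_iUnion, Finset.mem_Icc, exists_prop]
        exact ⟨i, ⟨hi1, hi2⟩, hcon⟩
      have h3 := htmin h2
      simp only [id_eq, mem_ofPred_eq] at h3
      linarith [hs.2]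
    have h2 : t ∈ closure (Ioo 0 t) := by
      rw [closure_Ioo htpos.ne]
      exact ⟨htpos.le, le_rfl⟩
    have h3 : IsClosed {s : ℝ | 0 ≤ g s i} := isClosed_le continuous_const (continuous_g i)
    exact closure_minimal (fun s hs => (h1 s hs).le) h3 h2
  refine ⟨t, htpos, by linarith, by linarith, k, hk1, le_antisymm hk3' (hpos k hk1 hk2), ?_, ?_⟩
  · intro i hi1 hi2
    exact hpos i hi1 (by omega)
  · calc (4 : ℝ) ^ k * t ≤ 4 ^ n * τ := by
          apply mul_le_mul (pow_le_pow_right₀ (by norm_num) hk2) htτ ht0 (by positivity)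
      _ = 28 := hτ4

theorem g_le_two {t : ℝ} (ht : 0 ≤ t) {k : ℕ} (hk0 : g t k = 0) {i : ℕ} (hi : i ≤ k) :
    |g t i| ≤ 2 := by
  have key : ∀ j, j ≤ k → |g t (k - j)| ≤ 2 := by
    intro j
    induction j with
    | zero =>
      intro _
      rw [Nat.sub_zero, hk0]
      norm_num
    | succ j ih =>
      intro hj
      have h1 := ih (by omega)
      have h2 : g t (k - j) = g t (k - (j + 1)) ^ 2 + (-2 + t) := by
        rw [← g_succ]
        congr 1
        omega
      have h3 : g t (k - j) ≤ 2 := (abs_le.mp h1).2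
      apply abs_le_of_sq_le_sq _ (by norm_num)
      linarith
  have := key (k - i) (by omega)
  rwa [show k - (k - i) = i by omega] at this

theorem g_ge {t : ℝ} {k : ℕ} (hpos : ∀ i, 2 ≤ i → i ≤ k → 0 ≤ g t i) (ht : t ≤ 1 / 20)
    {i : ℕ} (hi1 : 1 ≤ i) (hi : i < k) : 13 / 10 ≤ |g t i| := by
  have h1 := hpos (i + 1) (by omega) (by omega)
  rw [g_succ] at h1
  by_contra hcon
  push Not at hcon
  have h2 : g t i ^ 2 ≤ (13 / 10) ^ 2 := by
    rw [← sq_abs]
    exact pow_le_pow_left₀ (abs_nonneg _) hcon.le 2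
  nlinarith

end Pool.Agent.TH136.Tip
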