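import Mathlib
import Pool.Prelude.Def_F_c31e40fa
import Pool.Agent.TH136.Tip.SharpReal

set_option autoImplicit false

open Set Filter Metric MeasureTheory

namespace Pool.Agent.TH136.Tip

/-- The map `z ^ 2 + c`. -/
def fm (c : ℂ) : ℂ → ℂ := fun z => z ^ 2 + c

theorem U_add {x s : ℝ} (hx : 0 ≤ x) (hs : 0 ≤ s) :
    12 * (x + s) / (12 + (x + s)) ≤ 12 * x / (12 + x) + s := by
  rw [div_add' _ _ _ (by positivity), div_le_div_iff₀ (by positivity) (by positivity)]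
  nlinarith [mul_nonneg hx hs, mul_nonneg hs hs, mul_nonneg hx hx, mul_nonneg (mul_nonneg hx hx) hs,
    mul_nonneg (mul_nonneg hx hs) hs]

theorem U_mono {x y : ℝ} (hx : 0 ≤ x) (hxy : x ≤ y) : 12 * x / (12 + x) ≤ 12 * y / (12 + y) := by
  rw [div_le_div_iff₀ (by positivity) (by linarith)]
  nlinarith

theorem U_four {y : ℝ} (hy : 0 ≤ y) :
    12 * (y * (4 + y)) / (12 + y * (4 + y)) ≤ 4 * (12 * y / (12 + y)) := by
  rw [mul_div_assoc', div_le_div_iff₀ (by positivity) (by linarith)]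
  nlinarith [mul_nonneg hy hy, mul_nonneg (mul_nonneg hy hy) hy]

section

variable {t : ℝ} {k : ℕ} (hg2 : ∀ i ≤ k, |g t i| ≤ 2)

include hg2

/-- Shadowing of the real orbit. -/
theorem shadow {c v : ℂ} {s : ℝ} (hs : 0 ≤ s) (hc : ‖c - (-2 + t : ℝ)‖ ≤ s)
    (hv : ‖v - (g t 1 : ℝ)‖ ≤ s) {j : ℕ} (hj : j + 1 ≤ k) :
    12 * ‖(fm c)^[j] v - (g t (j + 1) : ℝ)‖ / (12 + ‖(fm c)^[j] v - (g t (j + 1) : ℝ)‖) ≤
      s * (4 ^ (j + 1) - 1) / 3 := by
  induction j with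
  | zero =>
    simp only [Function.iterate_zero, id_eq, zero_add, pow_one]
    refine (U_mono (norm_nonneg _) hv).trans ?_
    rw [div_le_iff₀ (by positivity)]
    nlinarith
  | succ j ih =>
    have h1 := ih (by omega)
    rw [Function.iterate_succ_apply']
    set w := (fm c)^[j] v with hw
    have h2 := hg2 (j + 1) (by omega)
    set x : ℝ := g t (j + 1) with hx
    have h3 : g t (j + 1 + 1) = x ^ 2 + (-2 + t) := by rw [g_succ]
    rw [h3]
    have h4 : fm c w - ((x ^ 2 + (-2 + t) : ℝ) : ℂ) = (w - x) * (2 * x + (w - x)) +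
        (c - ((-2 + t : ℝ) : ℂ)) := by
      unfold fm
      push_cast
      ring
    have h5 : ‖fm c w - ((x ^ 2 + (-2 + t) : ℝ) : ℂ)‖ ≤
        ‖w - x‖ * (4 + ‖w - x‖) + s := by
      rw [h4]
      refine (norm_add_le _ _).trans ?_
      rw [norm_mul]
      gcongr
      refine (norm_add_le _ _).trans ?_
      rw [norm_mul, Complex.norm_ofNat, Complex.norm_real, Real.norm_eq_abs]
      linarith
    refine (U_mono (norm_nonneg _) h5).trans ((U_add (by positivity) hs).trans ?_)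
    have h6 := U_four (norm_nonneg (w - (x : ℂ)))
    rw [pow_succ]
    linarith

theorem shadow' {c v : ℂ} {s : ℝ} (hs : 0 ≤ s) (hc : ‖c - (-2 + t : ℝ)‖ ≤ s)
    (hv : ‖v - (g t 1 : ℝ)‖ ≤ s) (hks : 4 ^ k * s ≤ 1) {j : ℕ} (hj : j + 1 ≤ k) :
    ‖(fm c)^[j] v - (g t (j + 1) : ℝ)‖ ≤ 2 / 3 * (4 ^ (j + 1) * s) := by
  have h1 := shadow hg2 hs hc hv hj
  set y := ‖(fm c)^[j] v - (g t (j + 1) : ℝ)‖ with hy
  have hy0 : 0 ≤ y := norm_nonneg _
  have h2 : (4 : ℝ) ^ (j + 1) * s ≤ 1 := by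
    refine le_trans ?_ hks
    gcongr
    · norm_num
  rw [div_le_iff₀ (by positivity)] at h1
  nlinarith

/-- Distortion. -/
theorem distort {c v v' : ℂ} {s : ℝ} (hs : 0 ≤ s) (hc : ‖c - (-2 + t : ℝ)‖ ≤ s)
    (hv : ‖v - (g t 1 : ℝ)‖ ≤ s) (hv' : ‖v' - (g t 1 : ℝ)‖ ≤ s) (hks : 4 ^ k * s ≤ 1)
    {j : ℕ} (hj : j + 1 ≤ k) :
    ‖(fm c)^[j] v - (fm c)^[j] v'‖ ≤ ‖v - v'‖ * (4 ^ j * (1 + 4 ^ (j + 1) * s)) := by
  induction j with
  | zero =>
    simp only [Function.iterate_zero, id_eq, zero_add, pow_zero, pow_one]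
    nlinarith [norm_nonneg (v - v')]
  | succ j ih =>
    have h1 := ih (by omega)
    have h2 := shadow' hg2 hs hc hv hks (j := j) (by omega)
    have h3 := shadow' hg2 hs hc hv' hks (j := j) (by omega)
    rw [Function.iterate_succ_apply', Function.iterate_succ_apply']
    set w := (fm c)^[j] v with hw
    set w' := (fm c)^[j] v' with hw'
    have h4 := hg2 (j + 1) (by omega)
    set x : ℝ := g t (j + 1) with hx
    have h5 : fm c w - fm c w' = (w - w') * ((w - x) + (w' - x) + 2 * x) := by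
      unfold fm
      ring
    have h6 : ‖(w - x) + (w' - x) + 2 * x‖ ≤ 4 * (1 + (4 ^ (j + 1) * s) / 3) := by
      refine (norm_add_le _ _).trans ?_
      have h7 := norm_add_le (w - x) (w' - x)
      rw [norm_mul, Complex.norm_ofNat, Complex.norm_real, Real.norm_eq_abs]
      linarith
    rw [h5, norm_mul]
    have hT0 : (0 : ℝ) ≤ 4 ^ (j + 1) * s := by positivity
    have hT1 : (4 : ℝ) ^ (j + 1) * s ≤ 1 := by
      refine le_trans ?_ hks
      gcongr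
      · norm_num
      · omega
    set T : ℝ := 4 ^ (j + 1) * s with hT
    have h8 : (4 : ℝ) ^ (j + 1 + 1) * s = 4 * T := by rw [hT, pow_succ (4 : ℝ) (j + 1)]; ring
    rw [h8]
    calc ‖w - w'‖ * ‖(w - x) + (w' - x) + 2 * x‖
        ≤ (‖v - v'‖ * (4 ^ j * (1 + T))) * (4 * (1 + T / 3)) := by gcongr
      _ = ‖v - v'‖ * 4 ^ (j + 1) * ((1 + T) * (1 + T / 3)) := by rw [pow_succ]; ring
      _ ≤ ‖v - v'‖ * 4 ^ (j + 1) * (1 + 4 * T) := by
          gcongr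
          nlinarith
      _ = ‖v - v'‖ * (4 ^ (j + 1) * (1 + 4 * T)) := by ring

end

/-- The return map of the critical disc. -/
theorem ret {t : ℝ} {k : ℕ} (ht : 0 < t) (ht1 : t ≤ 1 / 20) (hk : 2 ≤ k) (hk0 : g t k = 0)
    (hkt : 4 ^ k * t ≤ 28) {c : ℂ} (hc : ‖c - (-2 + t : ℝ)‖ ≤ (3 / 112) ^ 2 * t ^ 2) {z z' : ℂ}
    (hz : ‖z‖ ≤ 3 / 112 * t) (hz' : ‖z'‖ ≤ 3 / 112 * t) :
    ‖(fm c)^[k] z‖ ≤ 3 / 112 * t ∧
      ‖(fm c)^[k] z - (fm c)^[k] z'‖ ≤ 3 / 4 * ‖z - z'‖ := by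
  have hg2 : ∀ i ≤ k, |g t i| ≤ 2 := fun i hi => g_le_two ht.le hk0 hi
  set s : ℝ := 2 * (3 / 112) ^ 2 * t ^ 2 with hs
  have hs0 : 0 ≤ s := by positivity
  have hcs : ‖c - (-2 + t : ℝ)‖ ≤ s := by
    refine hc.trans ?_
    rw [hs]
    nlinarith [sq_nonneg t]
  have hg1 : g t 1 = -2 + t := by simp [g]
  have hv : ∀ y : ℂ, ‖y‖ ≤ 3 / 112 * t → ‖fm c y - (g t 1 : ℝ)‖ ≤ s := by
    intro y hy
    rw [hg1]
    have h1 : fm c y - ((-2 + t : ℝ) : ℂ) = y ^ 2 + (c - ((-2 + t : ℝ) : ℂ)) := by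
      unfold fm; ring
    rw [h1]
    refine (norm_add_le _ _).trans ?_
    rw [norm_pow]
    have h2 : ‖y‖ ^ 2 ≤ (3 / 112 * t) ^ 2 := pow_le_pow_left₀ (norm_nonneg _) hy 2
    rw [hs]
    nlinarith
  have h4k : (0 : ℝ) < 4 ^ k := by positivity
  have hks' : 4 ^ k * s ≤ 56 * (3 / 112) ^ 2 * t := by
    rw [hs]
    nlinarith [mul_le_mul_of_nonneg_right hkt ht.le]
  have hks : 4 ^ k * s ≤ 1 := by
    refine hks'.trans ?_
    nlinarith
  obtain ⟨j, rfl⟩ : ∃ j, k = j + 1 := ⟨k - 1, by omega⟩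
  constructor
  · have h1 := shadow' hg2 hs0 hcs (hv z hz) hks (j := j) le_rfl
    rw [hk0] at h1
    rw [Function.iterate_succ_apply]
    simp only [Complex.ofReal_zero, sub_zero] at h1
    refine h1.trans ?_
    nlinarith
  · have h1 := distort hg2 hs0 hcs (hv z hz) (hv z' hz') hks (j := j) le_rfl
    rw [Function.iterate_succ_apply, Function.iterate_succ_apply]
    refine h1.trans ?_
    have h2 : fm c z - fm c z' = (z - z') * (z + z') := by unfold fm; ring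
    have h3 : ‖z + z'‖ ≤ 2 * (3 / 112 * t) := (norm_add_le _ _).trans (by linarith)
    rw [h2, norm_mul]
    have h4 : (4 : ℝ) ^ j * (1 + 4 ^ (j + 1) * s) ≤ 4 ^ (j + 1) / 2 := by
      rw [pow_succ (4 : ℝ) j] at *
      have : (0 : ℝ) < 4 ^ j := by positivity
      nlinarith
    calc ‖z - z'‖ * ‖z + z'‖ * (4 ^ j * (1 + 4 ^ (j + 1) * s))
        ≤ ‖z - z'‖ * (2 * (3 / 112 * t)) * (4 ^ (j + 1) / 2) := by gcongr
      _ = (4 ^ (j + 1) * t) * (3 / 112) * ‖z - z'‖ := by ring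
      _ ≤ 28 * (3 / 112) * ‖z - z'‖ := by gcongr
      _ = 3 / 4 * ‖z - z'‖ := by ring

theorem ret_iter {t : ℝ} {k : ℕ} (ht : 0 < t) (ht1 : t ≤ 1 / 20) (hk : 2 ≤ k) (hk0 : g t k = 0)
    (hkt : 4 ^ k * t ≤ 28) {c : ℂ} (hc : ‖c - (-2 + t : ℝ)‖ ≤ (3 / 112) ^ 2 * t ^ 2) {z : ℂ}
    (hz : ‖z‖ ≤ 3 / 112 * t) (n : ℕ) : ‖((fm c)^[k])^[n] z‖ ≤ 3 / 112 * t := by
  induction n with
  | zero => simpa using hz
  | succ n ih =>
    rw [Function.iterate_succ_apply']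
    exact (ret ht ht1 hk hk0 hkt hc ih ih).1

theorem not_escape {t : ℝ} {k : ℕ} (ht : 0 < t) (ht1 : t ≤ 1 / 20) (hk : 2 ≤ k) (hk0 : g t k = 0)
    (hkt : 4 ^ k * t ≤ 28) {c : ℂ} (hc : ‖c - (-2 + t : ℝ)‖ ≤ (3 / 112) ^ 2 * t ^ 2) {z : ℂ}
    (hz : ‖z‖ ≤ 3 / 112 * t) :
    ¬ Tendsto (fun n => (fun z : ℂ => z ^ 2 + c)^[n] z) atTop (Bornology.cobounded ℂ) := by
  intro h
  have h1 : Tendsto (fun n : ℕ => k * n) atTop atTop :=
    tendsto_id.const_mul_atTop' (by omega)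
  have h2 := h.comp h1
  have h3 := h2.eventually (eventually_cobounded_le_norm (E := ℂ) 1)
  obtain ⟨n, hn⟩ := h3.exists
  have h4 := ret_iter ht ht1 hk hk0 hkt hc hz n
  rw [← Function.iterate_mul] at h4
  have h5 : (fun z : ℂ => z ^ 2 + c) = fm c := rfl
  simp only [Function.comp_apply] at hn
  rw [h5] at hn
  linarith

theorem centre_unique {t : ℝ} {k : ℕ} (ht : 0 < t) (ht1 : t ≤ 1 / 20) (hk : 2 ≤ k)
    (hk0 : g t k = 0) (hpos : ∀ i, 2 ≤ i → i ≤ k → 0 ≤ g t i)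
    (hkt : 4 ^ k * t ≤ 28) {c : ℂ} (hc : ‖c - (-2 + t : ℝ)‖ ≤ (3 / 112) ^ 2 * t ^ 2)
    {p : ℕ} (hp : 1 ≤ p) (h : (fm c)^[p] 0 = 0) : c = (-2 + t : ℝ) := by
  have h0 : ‖(0 : ℂ)‖ ≤ 3 / 112 * t := by rw [norm_zero]; positivity
  set F := (fm c)^[k] with hF
  -- the critical value of the return map is zero
  have hF0 : F 0 = 0 := by
    have h1 : ∀ n, ‖F^[n + 1] 0 - F^[n] 0‖ ≤ (3 / 4) ^ n * ‖F 0‖ := by
      intro n
      induction n with
      | zero => simp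
      | succ n ih =>
        rw [Function.iterate_succ_apply' F (n + 1), Function.iterate_succ_apply' F n]
        have h2 := (ret ht ht1 hk hk0 hkt hc (ret_iter ht ht1 hk hk0 hkt hc h0 (n + 1))
          (ret_iter ht ht1 hk hk0 hkt hc h0 n)).2
        rw [← hF, Function.iterate_succ_apply' F n] at h2
        refine h2.trans ?_
        rw [Function.iterate_succ_apply' F n] at ih
        rw [pow_succ]
        linarith
    have h2 : F^[p] 0 = 0 := by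
      rw [hF, ← Function.iterate_mul, mul_comm, Function.iterate_mul]
      exact Function.iterate_fixed h k
    have h3 := h1 p
    rw [Function.iterate_succ_apply', h2, sub_zero] at h3
    have h4 : ((3 : ℝ) / 4) ^ p ≤ 3 / 4 := by
      calc ((3 : ℝ) / 4) ^ p ≤ (3 / 4) ^ 1 := pow_le_pow_of_le_one (by norm_num) (by norm_num) hp
        _ = 3 / 4 := pow_one _
    have h5 : ‖F 0‖ = 0 := by
      nlinarith [norm_nonneg (F 0)]
    exact norm_eq_zero.mp h5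
  -- transversality
  have hg2 : ∀ i ≤ k, |g t i| ≤ 2 := fun i hi => g_le_two ht.le hk0 hi
  set d := ‖c - (-2 + t : ℝ)‖ with hd
  have hg1 : g t 1 = -2 + t := by simp [g]
  have hd0 : 0 ≤ d := norm_nonneg _
  have hkd : 4 ^ k * d ≤ 1 / 10 := by
    have : 4 ^ k * d ≤ 4 ^ k * ((3 / 112) ^ 2 * t ^ 2) := by gcongr
    nlinarith [mul_le_mul_of_nonneg_right hkt ht.le]
  have hlow : ∀ j, j + 1 ≤ k → d ≤ ‖(fm c)^[j] c - (g t (j + 1) : ℝ)‖ := by
    intro j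
    induction j with
    | zero =>
      intro _
      simp only [Function.iterate_zero, id_eq, zero_add]
      rw [hg1]
    | succ j ih =>
      intro hj
      have h1 := ih (by omega)
      have h2 := shadow' hg2 hd0 le_rfl (v := c) (by rw [hg1]) (by linarith) (j := j) (by omega)
      rw [Function.iterate_succ_apply']
      set w := (fm c)^[j] c with hw
      have h3 := g_ge hpos ht1 (i := j + 1) (by omega) (by omega)
      set x : ℝ := g t (j + 1) with hx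
      have h4 : g t (j + 1 + 1) = x ^ 2 + (-2 + t) := by rw [g_succ]
      rw [h4]
      have h5 : fm c w - ((x ^ 2 + (-2 + t) : ℝ) : ℂ) = (w - x) * (2 * x + (w - x)) +
          (c - ((-2 + t : ℝ) : ℂ)) := by
        unfold fm
        push_cast
        ring
      have h6 : (4 : ℝ) ^ (j + 1) * d ≤ 1 / 10 := by
        refine le_trans ?_ hkd
        gcongr
        · norm_num
        · omega
      have h7 : 2 ≤ ‖2 * (x : ℂ) + (w - x)‖ := by
        have h8 : ‖2 * (x : ℂ)‖ ≤ ‖2 * (x : ℂ) + (w - x)‖ + ‖w - x‖ := by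
          calc ‖2 * (x : ℂ)‖ = ‖(2 * (x : ℂ) + (w - x)) - (w - x)‖ := by congr 1; ring
            _ ≤ _ := norm_sub_le _ _
        rw [norm_mul, Complex.norm_ofNat, Complex.norm_real, Real.norm_eq_abs] at h8
        linarith
      rw [h5]
      have h8 : ‖(w - x) * (2 * x + (w - x))‖ ≤
          ‖(w - x) * (2 * x + (w - x)) + (c - ((-2 + t : ℝ) : ℂ))‖ + ‖c - ((-2 + t : ℝ) : ℂ)‖ := by
        calc ‖(w - x) * (2 * x + (w - x))‖ = ‖((w - x) * (2 * x + (w - x)) +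
              (c - ((-2 + t : ℝ) : ℂ))) - (c - ((-2 + t : ℝ) : ℂ))‖ := by congr 1; ring
          _ ≤ _ := norm_sub_le _ _
      rw [norm_mul] at h8
      nlinarith [norm_nonneg (w - (x : ℂ))]
  obtain ⟨j, rfl⟩ : ∃ j, k = j + 1 := ⟨k - 1, by omega⟩
  have h1 := hlow j le_rfl
  have h2 : (fm c)^[j] c = 0 := by
    have h3 : fm c 0 = c := by simp [fm]
    have h4 : (fm c)^[j + 1] 0 = 0 := hF0
    rw [Function.iterate_succ_apply, h3] at h4
    exact h4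
  rw [h2, hk0] at h1
  simp only [Complex.ofReal_zero, sub_zero, norm_zero] at h1
  have h3 : d = 0 := le_antisymm h1 hd0
  exact sub_eq_zero.mp (norm_eq_zero.mp h3)

/-- Sharpness. -/
theorem sharp : ∃ a : ℝ, 0 < a ∧ ∀ δ : ℝ, 0 < δ → ∃ c : ℂ, c ≠ -2 ∧ ‖c + 2‖ < δ ∧
    ball c (a * ‖c + 2‖ ^ 2) ⊆ N62a1eb23.multibrotSet 2 ∧
    (∀ c' ∈ ball c (a * ‖c + 2‖ ^ 2), ∀ p : ℕ, 1 ≤ p → (fun z : ℂ => z ^ 2 + c')^[p] 0 ≠ 0) ∧
    ENNReal.ofReal (a * ‖c + 2‖ ^ 2) ≤ volume {z : ℂ | ¬ Tendsto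
      (fun n => (fun z : ℂ => z ^ 2 + c)^[n] z) atTop (Bornology.cobounded ℂ)} := by
  refine ⟨(3 / 112) ^ 2 / 8, by positivity, ?_⟩
  intro δ hδ
  obtain ⟨t, ht, htδ, ht1, k, hk, hk0, hpos, hkt⟩ := exists_centre (half_pos hδ)
  set u : ℝ := (3 / 112) ^ 2 * t ^ 2 / 2 with hu
  have hu0 : 0 < u := by positivity
  have hut : u ≤ t := by
    rw [hu]
    nlinarith
  set c : ℂ := ((-2 + t : ℝ) : ℂ) + (u : ℝ) with hc
  have hc2 : c + 2 = ((t + u : ℝ) : ℂ) := by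
    rw [hc]
    push_cast
    ring
  have hnorm : ‖c + 2‖ = t + u := by
    rw [hc2, Complex.norm_real, Real.norm_eq_abs, abs_of_pos (by linarith)]
  have hrad : (3 / 112) ^ 2 / 8 * ‖c + 2‖ ^ 2 ≤ u := by
    rw [hnorm]
    have h1 : (t + u) ^ 2 ≤ (2 * t) ^ 2 := pow_le_pow_left₀ (by linarith) (by linarith) 2
    rw [hu]
    nlinarith
  have hball : ∀ c' ∈ ball c ((3 / 112) ^ 2 / 8 * ‖c + 2‖ ^ 2),
      ‖c' - (-2 + t : ℝ)‖ ≤ (3 / 112) ^ 2 * t ^ 2 ∧ c' ≠ ((-2 + t : ℝ) : ℂ) := by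
    intro c' hc'
    rw [mem_ball, dist_eq_norm] at hc'
    have h1 : ‖c' - c‖ < u := hc'.trans_le hrad
    have h2 : ‖c - ((-2 + t : ℝ) : ℂ)‖ = u := by
      rw [hc, add_sub_cancel_left, Complex.norm_real, Real.norm_eq_abs, abs_of_pos hu0]
    constructor
    · calc ‖c' - (-2 + t : ℝ)‖ = ‖(c' - c) + (c - (-2 + t : ℝ))‖ := by congr 1; ring
        _ ≤ ‖c' - c‖ + ‖c - (-2 + t : ℝ)‖ := norm_add_le _ _
        _ ≤ u + u := by rw [h2]; linarith
        _ = _ := by rw [hu]; ring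
    · rintro rfl
      rw [norm_sub_rev, h2] at h1
      exact lt_irrefl _ h1
  refine ⟨c, ?_, ?_, ?_, ?_, ?_⟩
  · intro h
    rw [h] at hnorm
    norm_num at hnorm
    linarith
  · rw [hnorm]
    linarith
  · intro c' hc'
    exact not_escape ht ht1 hk hk0 hkt (hball c' hc').1 (z := 0) (by rw [norm_zero]; positivity)
  · intro c' hc' p hp h
    exact (hball c' hc').2 (centre_unique ht ht1 hk hk0 hpos hkt (hball c' hc').1 hp h)
  · have h1 : closedBall (0 : ℂ) (3 / 112 * t) ⊆ {z : ℂ | ¬ Tendsto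
        (fun n => (fun z : ℂ => z ^ 2 + c)^[n] z) atTop (Bornology.cobounded ℂ)} := by
      intro z hz
      rw [mem_closedBall_zero_iff] at hz
      refine not_escape ht ht1 hk hk0 hkt ?_ hz
      exact (hball c (mem_ball_self (by
        have : 0 < ‖c + 2‖ := by rw [hnorm]; linarith
        positivity))).1
    refine le_trans ?_ (measure_mono h1)
    rw [Complex.volume_closedBall, ← ENNReal.ofReal_pow (by positivity),
      ← ENNReal.ofReal_coe_nnreal, ← ENNReal.ofReal_mul (by positivity)]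
    apply ENNReal.ofReal_le_ofReal
    have hpi : (3 : ℝ) ≤ NNReal.pi := Real.pi_gt_three.le
    have h2 : (3 / 112) ^ 2 / 8 * ‖c + 2‖ ^ 2 ≤ u := hrad
    refine h2.trans ?_
    rw [hu]
    nlinarith [mul_nonneg (sq_nonneg t) (show (0 : ℝ) ≤ NNReal.pi - 3 by linarith)]

end Pool.Agent.TH136.Tip
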